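import Mathlib

set_option autoImplicit false

namespace Pool.Agent.N404.TB
open PowerSeries

noncomputable def U : ℚ⟦X⟧ := mk 1

lemma U_mul : U * (1 - X) = 1 := mk_one_mul_one_sub_eq_one ℚ

lemma dU : d⁄dX ℚ U = U ^ 2 := by
  have h := congrArg (d⁄dX ℚ) U_mul
  rw [Derivation.leibniz] at h
  simp only [map_sub, derivative_X, derivative_one, smul_eq_mul] at h
  have h2 : (1 - X) * d⁄dX ℚ U = U := by linear_combination h
  calc d⁄dX ℚ U = (U * (1 - X)) * d⁄dX ℚ U := by rw [U_mul, one_mul]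
    _ = U * ((1 - X) * d⁄dX ℚ U) := by ring
    _ = U ^ 2 := by rw [h2]; ring

noncomputable def E (k j : ℕ) : ℚ⟦X⟧ := X ^ k * (1 + X) ^ j * U ^ (2 * k + j + 1)

noncomputable def T (F : ℚ⟦X⟧) : ℚ⟦X⟧ := 2 * X * d⁄dX ℚ F + F

lemma coeff_T (F : ℚ⟦X⟧) (r : ℕ) : coeff r (T F) = (2 * r + 1) * coeff r F := by
  unfold T
  rw [map_add, mul_assoc, show (2 : ℚ⟦X⟧) = C (2:ℚ) from (map_ofNat C 2).symm, coeff_C_mul]
  rcases r with _ | r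
  · rw [coeff_zero_X_mul]; simp
  · rw [coeff_succ_X_mul, coeff_derivative]; push_cast; ring

lemma T_add (F G : ℚ⟦X⟧) : T (F + G) = T F + T G := by
  unfold T; rw [map_add]; ring

lemma T_C_mul (a : ℚ) (F : ℚ⟦X⟧) : T (C a * F) = C a * T F := by
  unfold T
  rw [Derivation.leibniz, derivative_C]
  simp only [smul_eq_mul, mul_zero, add_zero]
  ring

lemma T_sum {ι : Type*} (s : Finset ι) (F : ι → ℚ⟦X⟧) : T (∑ i ∈ s, F i) = ∑ i ∈ s, T (F i) := by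
  unfold T
  rw [map_sum, Finset.mul_sum, ← Finset.sum_add_distrib]

lemma X_dX (k : ℕ) : X * d⁄dX ℚ ((X : ℚ⟦X⟧) ^ k) = (k : ℚ⟦X⟧) * X ^ k := by
  rcases k with _ | k
  · simp
  · rw [derivative_pow, derivative_X]
    simp only [Nat.add_sub_cancel]
    ring

lemma d_one_X (j : ℕ) : d⁄dX ℚ ((1 + X : ℚ⟦X⟧) ^ (j + 1)) = ((j : ℚ⟦X⟧) + 1) * (1 + X) ^ j := by
  rw [derivative_pow, map_add, derivative_X, derivative_one]
  simp only [Nat.add_sub_cancel]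
  push_cast
  ring

lemma d_U_pow (m : ℕ) : d⁄dX ℚ (U ^ (m + 1)) = ((m : ℚ⟦X⟧) + 1) * U ^ (m + 2) := by
  rw [derivative_pow, dU]
  simp only [Nat.add_sub_cancel]
  push_cast
  ring

lemma C_nat (a : ℕ) : (C (a : ℚ) : ℚ⟦X⟧) = (a : ℚ⟦X⟧) := by simp

lemma T_E_zero (k : ℕ) : T (E k 0) = C (2 * k + 1 : ℚ) * E k 1 := by
  have hU : U ^ (2 * k + 1) = (1 - X) * U ^ (2 * k + 2) := by
    calc U ^ (2 * k + 1) = (U * (1 - X)) * U ^ (2 * k + 1) := by rw [U_mul, one_mul]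
      _ = (1 - X) * U ^ (2 * k + 2) := by ring
  have h1 : T (E k 0) = 2 * (X * d⁄dX ℚ ((X : ℚ⟦X⟧) ^ k)) * U ^ (2 * k + 1) +
      2 * X * X ^ k * d⁄dX ℚ (U ^ (2 * k + 1)) + X ^ k * U ^ (2 * k + 1) := by
    unfold T E
    simp only [pow_zero, mul_one, add_zero]
    rw [Derivation.leibniz]
    simp only [smul_eq_mul]
    ring
  rw [h1, X_dX, d_U_pow, hU]
  unfold E
  have e : (C (2 * k + 1 : ℚ) : ℚ⟦X⟧) = 2 * (k : ℚ⟦X⟧) + 1 := by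
    rw [map_add, map_mul, map_ofNat, map_natCast, map_one]
  rw [e]
  push_cast
  ring

lemma T_E_succ (k j : ℕ) : T (E k (j + 1)) =
    C (2 * k + 1 : ℚ) * E k (j + 2) + C (4 * (j + 1) : ℚ) * E (k + 1) j := by
  have hU : U ^ (2 * k + (j + 1) + 1) = (1 - X) * U ^ (2 * k + j + 3) := by
    calc U ^ (2 * k + (j + 1) + 1) = (U * (1 - X)) * U ^ (2 * k + (j + 1) + 1) := by
          rw [U_mul, one_mul]
      _ = (1 - X) * U ^ (2 * k + j + 3) := by ring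
  have h1 : T (E k (j + 1)) =
      2 * (X * d⁄dX ℚ ((X : ℚ⟦X⟧) ^ k)) * (1 + X) ^ (j + 1) * U ^ (2 * k + (j + 1) + 1) +
      2 * X * X ^ k * d⁄dX ℚ ((1 + X : ℚ⟦X⟧) ^ (j + 1)) * U ^ (2 * k + (j + 1) + 1) +
      2 * X * X ^ k * (1 + X) ^ (j + 1) * d⁄dX ℚ (U ^ (2 * k + (j + 1) + 1)) +
      X ^ k * (1 + X) ^ (j + 1) * U ^ (2 * k + (j + 1) + 1) := by
    unfold T E
    rw [Derivation.leibniz, Derivation.leibniz]
    simp only [smul_eq_mul]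
    ring
  rw [h1, X_dX, d_one_X, d_U_pow, hU]
  unfold E
  have e : (C (2 * k + 1 : ℚ) : ℚ⟦X⟧) = 2 * (k : ℚ⟦X⟧) + 1 := by
    rw [map_add, map_mul, map_ofNat, map_natCast, map_one]
  have e2 : (C (4 * (j + 1) : ℚ) : ℚ⟦X⟧) = 4 * ((j : ℚ⟦X⟧) + 1) := by
    rw [map_mul, map_add, map_ofNat, map_natCast, map_one]
  rw [e, e2]
  push_cast
  ring

lemma E_split (k j : ℕ) : E k j = E k (j + 2) - 4 * E (k + 1) j := by
  have hU : U ^ (2 * k + j + 1) = (1 - X) ^ 2 * U ^ (2 * k + j + 3) := by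
    calc U ^ (2 * k + j + 1) = (U * (1 - X)) ^ 2 * U ^ (2 * k + j + 1) := by
          rw [U_mul]; ring
      _ = (1 - X) ^ 2 * U ^ (2 * k + j + 3) := by ring
  unfold E
  rw [hU]
  ring

/-- `Q_n F = (1/2)(T²F - F) + (n+1) F` -/
noncomputable def Q (n : ℕ) (F : ℚ⟦X⟧) : ℚ⟦X⟧ := C (1/2 : ℚ) * (T (T F) - F) + C ((n : ℚ) + 1) * F

lemma coeff_Q (n : ℕ) (F : ℚ⟦X⟧) (r : ℕ) :
    coeff r (Q n F) = (2 * r ^ 2 + 2 * r + n + 1) * coeff r F := by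
  unfold Q
  rw [map_add, coeff_C_mul, coeff_C_mul, map_sub, coeff_T, coeff_T]
  ring

lemma Q_C_mul (n : ℕ) (a : ℚ) (F : ℚ⟦X⟧) : Q n (C a * F) = C a * Q n F := by
  unfold Q; rw [T_C_mul, T_C_mul]; ring

lemma T_sub (F G : ℚ⟦X⟧) : T (F - G) = T F - T G := by
  unfold T; rw [map_sub]; ring

lemma Q_sum {ι : Type*} (n : ℕ) (s : Finset ι) (F : ι → ℚ⟦X⟧) :
    Q n (∑ i ∈ s, F i) = ∑ i ∈ s, Q n (F i) := by
  unfold Q
  rw [T_sum, T_sum, Finset.mul_sum, ← Finset.sum_sub_distrib, Finset.mul_sum,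
    ← Finset.sum_add_distrib]

lemma hC_eq (a : ℚ) (F : ℚ⟦X⟧) : C a * F = a • F := by
  rw [PowerSeries.smul_eq_C_mul]

lemma T_smul (a : ℚ) (F : ℚ⟦X⟧) : T (a • F) = a • T F := by
  rw [← hC_eq, T_C_mul, hC_eq]

lemma Q_eq (n : ℕ) (F : ℚ⟦X⟧) : Q n F = (1/2 : ℚ) • (T (T F) - F) + ((n : ℚ) + 1) • F := by
  unfold Q; rw [hC_eq, hC_eq]

lemma T_E_zero' (k : ℕ) : T (E k 0) = (2 * k + 1 : ℚ) • E k 1 := by
  rw [T_E_zero, hC_eq]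

lemma T_E_succ' (k j : ℕ) : T (E k (j + 1)) =
    (2 * k + 1 : ℚ) • E k (j + 2) + (4 * (j + 1) : ℚ) • E (k + 1) j := by
  rw [T_E_succ, hC_eq, hC_eq]

lemma E_split' (k j : ℕ) : E k j = E k (j + 2) - (4 : ℚ) • E (k + 1) j := by
  rw [← hC_eq]
  have : (C (4:ℚ) : ℚ⟦X⟧) = 4 := map_ofNat C 4
  rw [this]
  exact E_split k j

lemma Q_E_zero (k : ℕ) : Q (2 * k) (E k 0) =
    (2 * (k:ℚ) ^ 2 + 2 * k + (2 * k : ℕ) + 1) • E k 2 + (-4 * (k:ℚ)) • E (k + 1) 0 := by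
  rw [Q_eq, T_E_zero', T_smul, T_E_succ']
  conv_lhs => rw [E_split' k 0]
  simp only [Nat.zero_add]
  push_cast
  module

lemma Q_E_one (k : ℕ) : Q (2 * k + 1) (E k 1) =
    (2 * (k:ℚ) ^ 2 + 2 * k + (2 * k + 1 : ℕ) + 1) • E k 3 + (4 * ((k:ℚ) + 1)) • E (k + 1) 1 := by
  rw [Q_eq, T_E_succ', T_add, T_smul, T_smul, T_E_succ', T_E_zero']
  conv_lhs => rw [E_split' k 1]
  push_cast
  module

lemma Q_E_two (k j : ℕ) : Q (2 * k + (j + 2)) (E k (j + 2)) =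
    (2 * (k:ℚ) ^ 2 + 2 * k + (2 * k + (j + 2) : ℕ) + 1) • E k (j + 4) +
    (4 * ((2 * (k:ℚ) + 1) * (j + 2) - k)) • E (k + 1) (j + 2) +
    (8 * ((j : ℚ) + 2) * (j + 1)) • E (k + 2) j := by
  rw [Q_eq, T_E_succ', T_add, T_smul, T_smul, T_E_succ', T_E_succ']
  conv_lhs => rw [E_split' k (j + 2)]
  push_cast
  module

end Pool.Agent.N404.TB
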