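import Mathlib

set_option autoImplicit false

namespace Pool.Agent.N404.TB

/-- letters `(a,b)` with `0 ≤ a ≤ r`, `|b| ≤ r`, and `b ≥ 0` if `a = 0` -/
noncomputable def Tr (r : ℕ) : Finset (ℤ × ℤ) :=
  ((Finset.Icc (0:ℤ) r) ×ˢ (Finset.Icc (-(r:ℤ)) r)).filter (fun p => p.1 = 0 → 0 ≤ p.2)

def io (p : ℤ × ℤ) : ℤ × ℤ := if 0 ≤ p.2 then (p.2, p.1) else (-p.2, -p.1)

lemma mem_Tr {r : ℕ} {p : ℤ × ℤ} :
    p ∈ Tr r ↔ (0 ≤ p.1 ∧ p.1 ≤ r) ∧ (-(r:ℤ) ≤ p.2 ∧ p.2 ≤ r) ∧ (p.1 = 0 → 0 ≤ p.2) := by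
  simp [Tr, and_assoc]

lemma io_mem {r : ℕ} {p : ℤ × ℤ} (h : p ∈ Tr r) : io p ∈ Tr r := by
  rw [mem_Tr] at h ⊢
  unfold io
  split_ifs with h0
  · simp only []
    refine ⟨⟨h0, h.2.1.2⟩, ⟨by omega, h.1.2⟩, fun _ => h.1.1⟩
  · simp only []
    refine ⟨⟨by omega, by omega⟩, ⟨by omega, by omega⟩, fun h1 => by omega⟩

lemma io_io {r : ℕ} {p : ℤ × ℤ} (h : p ∈ Tr r) : io (io p) = p := by
  rw [mem_Tr] at h
  obtain ⟨a, b⟩ := p
  simp only [] at h
  unfold io
  by_cases h0 : 0 ≤ b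
  · simp [h0, h.1.1]
  · have h1 : ¬ (0 ≤ -a) := by
      intro h2
      exact h0 (h.2.2 (by omega))
    simp only [h0, if_false, h1]
    simp

lemma io_inj {r : ℕ} {p q : ℤ × ℤ} (hp : p ∈ Tr r) (hq : q ∈ Tr r) (h : io p = io q) : p = q := by
  rw [← io_io hp, ← io_io hq, h]

noncomputable def SF (n r : ℕ) : Finset ((ℤ × ℤ) → ℕ) :=
  (Finset.piAntidiag (Tr r) n).filter (fun c => ∀ p ∈ Tr r, c (io p) = c p)

lemma mem_SF {n r : ℕ} {c : ℤ × ℤ → ℕ} : c ∈ SF n r ↔
    (∑ p ∈ Tr r, c p = n ∧ ∀ p, c p ≠ 0 → p ∈ Tr r) ∧ ∀ p ∈ Tr r, c (io p) = c p := by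
  rw [SF, Finset.mem_filter, Finset.mem_piAntidiag]

def ob (t : ℤ × ℤ) : ℤ × ℤ → ℕ := fun p => if p = t ∨ p = io t then 1 else 0

lemma ob_sum {r : ℕ} {t : ℤ × ℤ} (ht : t ∈ Tr r) :
    ∑ p ∈ Tr r, ob t p = if io t = t then 1 else 2 := by
  classical
  unfold ob
  rw [← Finset.sum_filter, Finset.sum_const, smul_eq_mul, mul_one]
  have : (Tr r).filter (fun p => p = t ∨ p = io t) = {t, io t} := by
    ext p
    simp only [Finset.mem_filter, Finset.mem_insert, Finset.mem_singleton]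
    constructor
    · exact fun h => h.2
    · rintro (h | h)
      · exact ⟨h ▸ ht, Or.inl h⟩
      · exact ⟨h ▸ io_mem ht, Or.inr h⟩
  rw [this]
  split_ifs with h
  · rw [h]; simp
  · rw [Finset.card_pair (fun h' => h h'.symm)]

lemma ob_io {r : ℕ} {t p : ℤ × ℤ} (ht : t ∈ Tr r) (hp : p ∈ Tr r) : ob t (io p) = ob t p := by
  unfold ob
  have : (io p = t ∨ io p = io t) ↔ (p = t ∨ p = io t) := by
    constructor
    · rintro (h | h)
      · right; rw [← io_io hp, h]
      · left; exact io_inj hp ht h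
    · rintro (h | h)
      · right; rw [h]
      · left; rw [h, io_io ht]
  simp only [this]

lemma rec_q {n r : ℕ} {t : ℤ × ℤ} (ht : t ∈ Tr r) :
    ∑ c ∈ SF (n + (if io t = t then 1 else 2)) r, c t = ∑ c ∈ SF n r, c t + (SF n r).card := by
  classical
  have h1 : ∑ c ∈ SF n r, c t + (SF n r).card = ∑ c ∈ SF n r, (c t + 1) := by
    rw [Finset.sum_add_distrib]; simp
  rw [h1]
  have h2 : ∑ c ∈ SF (n + (if io t = t then 1 else 2)) r, c t =
      ∑ c ∈ (SF (n + (if io t = t then 1 else 2)) r).filter (fun c => c t ≠ 0), c t :=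
    (Finset.sum_filter_ne_zero _).symm
  rw [h2]
  have obt : ob t t = 1 := by simp [ob]
  have obit : ob t (io t) = 1 := by simp [ob]
  symm
  refine Finset.sum_nbij' (fun c => c + ob t) (fun c => c - ob t) ?_ ?_ ?_ ?_ ?_
  · intro c hc
    rw [mem_SF] at hc
    rw [Finset.mem_filter, mem_SF]
    refine ⟨⟨⟨?_, ?_⟩, ?_⟩, ?_⟩
    · simp only [Pi.add_apply]
      rw [Finset.sum_add_distrib, hc.1.1, ob_sum ht]
    · intro p hp
      by_cases h : c p = 0
      · have : ob t p ≠ 0 := by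
          intro h'; exact hp (by simp [h, h'])
        unfold ob at this
        by_cases h3 : p = t ∨ p = io t
        · rcases h3 with h3 | h3
          · exact h3 ▸ ht
          · exact h3 ▸ io_mem ht
        · rw [if_neg h3] at this; exact absurd rfl this
      · exact hc.1.2 p h
    · intro p hp
      simp only [Pi.add_apply]
      rw [hc.2 p hp, ob_io ht hp]
    · simp only [Pi.add_apply, obt]; omega
  · intro c hc
    rw [Finset.mem_filter, mem_SF] at hc
    obtain ⟨⟨⟨hs, hsup⟩, hsym⟩, hne⟩ := hc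
    have hle : ∀ p, ob t p ≤ c p := by
      intro p
      unfold ob
      split_ifs with h
      · rcases h with h | h
        · rw [h]; omega
        · rw [h, hsym t ht]; omega
      · exact Nat.zero_le _
    rw [mem_SF]
    refine ⟨⟨?_, ?_⟩, ?_⟩
    · have h3 : ∑ p ∈ Tr r, (c - ob t) p + ∑ p ∈ Tr r, ob t p = ∑ p ∈ Tr r, c p := by
        rw [← Finset.sum_add_distrib]
        refine Finset.sum_congr rfl (fun p _ => ?_)
        simp only [Pi.sub_apply]
        have := hle p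
        omega
      rw [hs, ob_sum ht] at h3
      exact Nat.add_right_cancel h3
    · intro p hp
      apply hsup
      simp only [Pi.sub_apply] at hp
      omega
    · intro p hp
      simp only [Pi.sub_apply]
      rw [hsym p hp, ob_io ht hp]
  · intro c hc
    funext p
    simp
  · intro c hc
    rw [Finset.mem_filter, mem_SF] at hc
    obtain ⟨⟨⟨hs, hsup⟩, hsym⟩, hne⟩ := hc
    funext p
    simp only [Pi.sub_apply, Pi.add_apply]
    have : ob t p ≤ c p := by
      unfold ob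
      split_ifs with h
      · rcases h with h | h
        · rw [h]; omega
        · rw [h, hsym t ht]; omega
      · exact Nat.zero_le _
    omega
  · intro c hc
    simp [obt]

lemma sum_q (n r : ℕ) : ∑ t ∈ Tr r, ∑ c ∈ SF n r, c t = n * (SF n r).card := by
  rw [Finset.sum_comm]
  rw [Finset.sum_congr rfl (g := fun _ => n) (fun c hc => (mem_SF.mp hc).1.1)]
  simp [mul_comm]

lemma rec_q2 {n r : ℕ} {t : ℤ × ℤ} (ht : t ∈ Tr r) :
    ∑ c ∈ SF (n + 2) r, c t = ∑ c ∈ SF n r, c t + (SF n r).card +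
      (if io t = t then (SF (n + 1) r).card else 0) := by
  by_cases h : io t = t
  · have h1 := rec_q (n := n) ht
    have h2 := rec_q (n := n + 1) ht
    rw [if_pos h] at h1 h2
    rw [if_pos h, h2, h1]
  · have h1 := rec_q (n := n) ht
    rw [if_neg h] at h1
    rw [if_neg h, h1]; simp

lemma card_Tr (r : ℕ) : (Tr r).card = 2 * r ^ 2 + 2 * r + 1 := by
  classical
  have h := Finset.card_filter_add_card_filter_not (s := (Finset.Icc (0:ℤ) r) ×ˢ (Finset.Icc (-(r:ℤ)) r))
    (fun p => p.1 = 0 → 0 ≤ p.2)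
  have h2 : ((Finset.Icc (0:ℤ) r) ×ˢ (Finset.Icc (-(r:ℤ)) r)).filter (fun p => ¬ (p.1 = 0 → 0 ≤ p.2))
      = ({0} : Finset ℤ) ×ˢ (Finset.Icc (-(r:ℤ)) (-1)) := by
    ext ⟨a, b⟩
    simp only [Finset.mem_filter, Finset.mem_product, Finset.mem_Icc, Finset.mem_singleton,
      Classical.not_imp, not_le]
    constructor
    · rintro ⟨⟨h1, h2⟩, h3, h4⟩; exact ⟨h3, by omega, by omega⟩
    · rintro ⟨h1, h2, h3⟩; subst h1; refine ⟨⟨⟨le_rfl, by omega⟩, ⟨by omega, by omega⟩⟩, rfl, by omega⟩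
  rw [h2] at h
  have h3 : (({0} : Finset ℤ) ×ˢ (Finset.Icc (-(r:ℤ)) (-1))).card = r := by
    rw [Finset.card_product]; simp
  have h4 : ((Finset.Icc (0:ℤ) r) ×ˢ (Finset.Icc (-(r:ℤ)) r)).card = (r + 1) * (2 * r + 1) := by
    rw [Finset.card_product]
    simp only [Int.card_Icc]
    congr 1
    omega
  rw [h3, h4] at h
  have h5 : (Tr r).card + r = (r + 1) * (2 * r + 1) := h
  nlinarith

lemma card_Fix (r : ℕ) : ((Tr r).filter (fun t => io t = t)).card = 2 * r + 1 := by
  classical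
  have : (Tr r).filter (fun t => io t = t) = (Finset.Icc (-(r:ℤ)) r).image (fun b => (|b|, b)) := by
    ext ⟨a, b⟩
    simp only [Finset.mem_filter, Finset.mem_image, Finset.mem_Icc, mem_Tr, Prod.mk.injEq]
    constructor
    · rintro ⟨⟨h1, h2, h3⟩, h4⟩
      refine ⟨b, h2, ?_, rfl⟩
      unfold io at h4
      by_cases hb : 0 ≤ b
      · simp only [hb, if_true, Prod.mk.injEq] at h4
        rw [abs_of_nonneg hb]; exact h4.1
      · simp only [hb, if_false, Prod.mk.injEq] at h4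
        rw [abs_of_neg (by omega)]; exact h4.1
    · rintro ⟨b', h1, h2, h3⟩
      subst h3
      rw [← h2]
      refine ⟨⟨⟨abs_nonneg _, abs_le.mpr h1⟩, h1, fun h => ?_⟩, ?_⟩
      · rw [abs_eq_zero] at h; omega
      · unfold io
        by_cases hb : 0 ≤ b'
        · simp [hb, abs_of_nonneg hb]
        · simp [hb, abs_of_neg (not_le.mp hb)]
  rw [this, Finset.card_image_of_injective]
  · simp only [Int.card_Icc]; omega
  · intro a b h
    simpa using (Prod.mk.inj h).2

theorem SF_rec (n r : ℕ) : (n + 2) * (SF (n + 2) r).card =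
    (n + 2 * r ^ 2 + 2 * r + 1) * (SF n r).card + (2 * r + 1) * (SF (n + 1) r).card := by
  have h := sum_q (n + 2) r
  rw [Finset.sum_congr rfl (fun t ht => rec_q2 ht), Finset.sum_add_distrib,
    Finset.sum_add_distrib, sum_q, Finset.sum_const, ← Finset.sum_filter, Finset.sum_const,
    card_Fix, card_Tr] at h
  simp only [smul_eq_mul] at h
  rw [← h]
  ring

theorem SF_zero (r : ℕ) : (SF 0 r).card = 1 := by
  have : SF 0 r = {0} := by
    ext c
    rw [mem_SF, Finset.mem_singleton]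
    constructor
    · rintro ⟨⟨h1, h2⟩, h3⟩
      funext p
      by_contra h
      have h4 := (Finset.sum_eq_zero_iff).mp h1 p (h2 p h)
      exact h h4
    · rintro rfl
      simp
  rw [this]; simp

theorem SF_one (r : ℕ) : (SF 1 r).card = 2 * r + 1 := by
  have h := sum_q 1 r
  rw [one_mul] at h
  rw [← h]
  have : ∀ t ∈ Tr r, ∑ c ∈ SF 1 r, c t = if io t = t then 1 else 0 := by
    intro t ht
    by_cases h0 : io t = t
    · have h1 := rec_q (n := 0) ht
      rw [if_pos h0] at h1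
      rw [if_pos h0, h1, SF_zero]
      have : ∑ c ∈ SF 0 r, c t = 0 := by
        refine Finset.sum_eq_zero (fun c hc => ?_)
        rw [mem_SF] at hc
        exact (Finset.sum_eq_zero_iff).mp hc.1.1 t ht
      rw [this]
    · rw [if_neg h0]
      refine Finset.sum_eq_zero (fun c hc => ?_)
      rw [mem_SF] at hc
      have h1 : c t + c (io t) ≤ ∑ p ∈ Tr r, c p := by
        rw [← Finset.sum_pair (fun h => h0 h.symm)]
        refine Finset.sum_le_sum_of_subset (fun x hx => ?_)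
        rw [Finset.mem_insert, Finset.mem_singleton] at hx
        rcases hx with rfl | rfl
        · exact ht
        · exact io_mem ht
      rw [hc.1.1, hc.2 t ht] at h1
      omega
  rw [Finset.sum_congr rfl this, ← Finset.sum_filter, Finset.sum_const, card_Fix]
  simp

end Pool.Agent.N404.TB
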