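import Pool.Agent.N404.TB.Chain
import Pool.Agent.N404.TB.Sym

set_option autoImplicit false

namespace Pool.Agent.N404.TB

abbrev SP (n : ℕ) := Equiv.Perm (Fin n) × (Fin n → Bool)

def wb {n : ℕ} (w : SP n) (i : Fin n) : ℤ :=
  (if w.2 i then (-1 : ℤ) else 1) * (((w.1 i : ℕ) : ℤ) + 1)

def IsInv {n : ℕ} (w : SP n) : Prop := ∀ i : Fin n, w.1 (w.1 i) = i ∧ w.2 (w.1 i) = w.2 i

def DD {n : ℕ} (w : SP n) : ℕ → Prop := fun k =>
  (∃ j : Fin n, j.val = k ∧ k = 0 ∧ w.2 j = true) ∨
  (∃ i j : Fin n, j.val = k ∧ j.val = i.val + 1 ∧ wb w j < wb w i)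

lemma wb_pos {n : ℕ} {w : SP n} {i : Fin n} (h : w.2 i = false) : wb w i = (w.1 i : ℕ) + 1 := by
  simp [wb, h]

lemma wb_neg {n : ℕ} {w : SP n} {i : Fin n} (h : w.2 i = true) : wb w i = -((w.1 i : ℕ) + 1) := by
  simp [wb, h]

lemma wb_inj {n : ℕ} {w : SP n} {i j : Fin n} (h : wb w i = wb w j) : i = j := by
  have : ((w.1 i : ℕ) : ℤ) = (w.1 j : ℕ) := by
    rcases hi : w.2 i with _ | _ <;> rcases hj : w.2 j with _ | _
    · rw [wb_pos hi, wb_pos hj] at h; omega
    · rw [wb_pos hi, wb_neg hj] at h; omega
    · rw [wb_neg hi, wb_pos hj] at h; omega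
    · rw [wb_neg hi, wb_neg hj] at h; omega
  have h2 : w.1 i = w.1 j := Fin.ext (by exact_mod_cast this)
  exact w.1.injective h2

/-- pairwise form of the chain condition -/
def Pw {n : ℕ} (w : SP n) (f : Fin n → ℕ) : Prop :=
  (∀ i j : Fin n, i < j → f i ≤ f j ∧ (f i = f j → wb w i < wb w j)) ∧
  (∀ i : Fin n, f i = 0 → w.2 i = false)

lemma chain_iff {n : ℕ} {w : SP n} {f : Fin n → ℕ} : Chain n (DD w) f ↔ Pw w f := by
  constructor
  · intro h
    have key : ∀ k : ℕ, ∀ i j : Fin n, j.val = i.val + k + 1 →
        f i ≤ f j ∧ (f i = f j → wb w i < wb w j) := by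
      intro k
      induction k with
      | zero =>
        intro i j hij
        have h1 := h.2 i j hij
        refine ⟨h1.1, fun he => ?_⟩
        by_contra hlt
        have hne : wb w i ≠ wb w j := fun he' => by
          have := wb_inj he'
          rw [this] at hij; omega
        have : wb w j < wb w i := lt_of_le_of_ne (not_lt.mp hlt) (fun h' => hne h'.symm)
        have := h1.2 (Or.inr ⟨i, j, rfl, hij, this⟩)
        omega
      | succ k ih =>
        intro i j hij
        let m : Fin n := ⟨i.val + k + 1, by omega⟩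
        have h1 := ih i m rfl
        have h2 := h.2 m j (by show j.val = i.val + k + 1 + 1; omega)
        refine ⟨h1.1.trans h2.1, fun he => ?_⟩
        have e1 : f i = f m := by omega
        have e2 : f m = f j := by omega
        have l1 := h1.2 e1
        by_contra hlt
        have hne : wb w m ≠ wb w j := fun he' => by
          have := wb_inj he'
          rw [← this] at hij
          simp [m] at hij
        by_cases hmj : wb w j < wb w m
        · have := h2.2 (Or.inr ⟨m, j, rfl, by show j.val = i.val + k + 1 + 1; omega, hmj⟩)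
          omega
        · exact hlt (by omega)
    have key2 : ∀ i j : Fin n, i < j → f i ≤ f j ∧ (f i = f j → wb w i < wb w j) := by
      intro i j hij
      have : i.val < j.val := hij
      exact key (j.val - i.val - 1) i j (by omega)
    refine ⟨key2, fun i hi => ?_⟩
    let z : Fin n := ⟨0, by have := i.isLt; omega⟩
    have hz : f z = 0 ∧ wb w z ≤ wb w i := by
      by_cases h0 : i.val = 0
      · have : i = z := Fin.ext h0
        rw [← this]; exact ⟨hi, le_rfl⟩
      · have h1 := key2 z i (by show 0 < i.val; omega)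
        have h2 : f z = 0 := by omega
        exact ⟨h2, (h1.2 (by omega)).le⟩
    have hw : w.2 z = false := by
      by_contra hc
      rw [Bool.not_eq_false] at hc
      have := h.1 z rfl (Or.inl ⟨z, rfl, rfl, hc⟩)
      omega
    by_contra hc
    rw [Bool.not_eq_false] at hc
    have h1 := wb_pos hw
    have h2 := wb_neg hc
    omega
  · rintro ⟨h1, h2⟩
    refine ⟨fun i hi hD => ?_, fun i j hij => ⟨(h1 i j (by show i.val < j.val; omega)).1, fun hD => ?_⟩⟩
    · rcases hD with ⟨j, hj, _, hw⟩ | ⟨a, b, hb, hab, _⟩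
      · have : i = j := Fin.ext (by omega)
        subst this
        by_contra hc
        have := h2 i (by omega)
        rw [hw] at this
        exact absurd this (by simp)
      · omega
    · rcases hD with ⟨a, ha, h0, hw⟩ | ⟨a, b, hb, hab, hlt⟩
      · omega
      · have e1 : b = j := Fin.ext hb
        have e2 : a = i := Fin.ext (by rw [e1] at hab; omega)
        subst e1 e2
        have h3 := h1 a b (by show a.val < b.val; omega)
        by_contra hc
        have := h3.2 (by omega)
        omega

def PP {n : ℕ} (w : SP n) (f : Fin n → ℕ) (i : Fin n) : ℤ × ℤ :=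
  ((f i : ℤ), (if w.2 i then (-1 : ℤ) else 1) * (f (w.1 i) : ℤ))

noncomputable def cc {n : ℕ} (P : Fin n → ℤ × ℤ) : ℤ × ℤ → ℕ :=
  fun p => (Finset.univ.filter (fun i => P i = p)).card

section maps
variable {n r : ℕ} {w : SP n} {f : Fin n → ℕ}

lemma pos_of_true (hw : IsInv w) (h : Pw w f) {i : Fin n} (hi : w.2 i = true) :
    0 < f (w.1 i) := by
  rcases Nat.eq_zero_or_pos (f (w.1 i)) with h0 | h0
  · have := h.2 _ h0
    rw [(hw i).2, hi] at this
    exact absurd this (by simp)
  · exact h0

lemma pos_of_true' (h : Pw w f) {i : Fin n} (hi : w.2 i = true) : 0 < f i := by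
  rcases Nat.eq_zero_or_pos (f i) with h0 | h0
  · have := h.2 _ h0
    rw [hi] at this
    exact absurd this (by simp)
  · exact h0

lemma PP_snd_neg (hw : IsInv w) (h : Pw w f) {i : Fin n} (hi : w.2 i = true) :
    (PP w f i).2 < 0 := by
  have := pos_of_true hw h hi
  simp only [PP, hi, if_true]
  omega

lemma PP_snd_nonneg {i : Fin n} (hi : w.2 i = false) : 0 ≤ (PP w f i).2 := by
  simp [PP, hi]

lemma PP_mem (_hw : IsInv w) (hr : ∀ i, f i ≤ r) (h : Pw w f) (i : Fin n) : PP w f i ∈ Tr r := by
  rw [mem_Tr]
  have h1 := hr i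
  have h2 := hr (w.1 i)
  rcases hi : w.2 i with _ | _
  · simp only [PP, hi]
    simp
    omega
  · have h3 := pos_of_true' h hi
    simp only [PP, hi, if_true]
    omega

lemma PP_io (hw : IsInv w) (h : Pw w f) (i : Fin n) : PP w f (w.1 i) = io (PP w f i) := by
  rcases hi : w.2 i with _ | _
  · have h1 := PP_snd_nonneg (f := f) hi
    rw [io, if_pos h1]
    simp [PP, hi, (hw i).1, (hw i).2]
  · have h1 := PP_snd_neg hw h hi
    rw [io, if_neg (not_le.mpr h1)]
    simp [PP, hi, (hw i).1, (hw i).2]

lemma cc_mem (hw : IsInv w) (hr : ∀ i, f i ≤ r) (h : Pw w f) : cc (PP w f) ∈ SF n r := by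
  classical
  rw [mem_SF]
  refine ⟨⟨?_, ?_⟩, ?_⟩
  · have := Finset.card_eq_sum_card_fiberwise (f := PP w f) (s := (Finset.univ : Finset (Fin n)))
      (t := Tr r) (fun i _ => PP_mem hw hr h i)
    rw [Finset.card_univ, Fintype.card_fin] at this
    exact this.symm
  · intro p hp
    unfold cc at hp
    obtain ⟨i, hi⟩ := Finset.card_ne_zero.mp hp
    rw [Finset.mem_filter] at hi
    rw [← hi.2]
    exact PP_mem hw hr h i
  · intro p hp
    unfold cc
    refine Finset.card_nbij' (fun i => w.1 i) (fun i => w.1 i) ?_ ?_ ?_ ?_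
    · intro i hi
      simp only [Finset.coe_filter, Finset.mem_univ, true_and, Set.mem_ofPred_eq] at hi ⊢
      rw [PP_io hw h, hi, io_io hp]
    · intro i hi
      simp only [Finset.coe_filter, Finset.mem_univ, true_and, Set.mem_ofPred_eq] at hi ⊢
      rw [PP_io hw h, hi]
    · intro i _; exact (hw i).1
    · intro i _; exact (hw i).1

lemma PP_mono (hw : IsInv w) (h : Pw w f) : Monotone (fun i => toLex (PP w f i)) := by
  intro i j hij
  rcases hij.lt_or_eq with hlt | rfl
  · rw [Prod.Lex.toLex_le_toLex]
    have h1 := h.1 i j hlt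
    rcases h1.1.lt_or_eq with h2 | h2
    · left; simp [PP]; exact h2
    · right
      have h3 := h1.2 h2
      refine ⟨by simp [PP, h2], ?_⟩
      rcases hi : w.2 i with _ | _ <;> rcases hj : w.2 j with _ | _
      · rw [wb_pos hi, wb_pos hj] at h3
        have h4 := (h.1 (w.1 i) (w.1 j) (by rw [Fin.lt_def]; omega)).1
        simp [PP, hi, hj, h4]
      · rw [wb_pos hi, wb_neg hj] at h3; omega
      · exact (PP_snd_neg hw h hi).le.trans (PP_snd_nonneg hj)
      · rw [wb_neg hi, wb_neg hj] at h3
        have h4 := (h.1 (w.1 j) (w.1 i) (by rw [Fin.lt_def]; omega)).1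
        simp [PP, hi, hj, h4]
  · exact le_rfl

end maps

/-- a monotone map from `Fin n` is determined by the number of elements below each value -/
lemma mono_le_iff {n : ℕ} {α : Type*} [LinearOrder α] {Q : Fin n → α} (hQ : Monotone Q) (a : α)
    (i : Fin n) : Q i ≤ a ↔ i.val < (Finset.univ.filter (fun j => Q j ≤ a)).card := by
  constructor
  · intro h
    have : (Finset.Iic i).card ≤ (Finset.univ.filter (fun j => Q j ≤ a)).card := by
      apply Finset.card_le_card
      intro j hj
      rw [Finset.mem_Iic] at hj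
      rw [Finset.mem_filter]
      exact ⟨Finset.mem_univ _, (hQ hj).trans h⟩
    rw [Fin.card_Iic] at this
    omega
  · intro h
    by_contra hc
    have : (Finset.univ.filter (fun j => Q j ≤ a)).card ≤ (Finset.Iio i).card := by
      apply Finset.card_le_card
      intro j hj
      rw [Finset.mem_filter] at hj
      rw [Finset.mem_Iio]
      by_contra hji
      exact hc ((hQ (not_lt.mp hji)).trans hj.2)
    rw [Fin.card_Iio] at this
    omega

lemma eq_of_cc {n : ℕ} {P P' : Fin n → ℤ × ℤ} (h : Monotone (fun i => toLex (P i)))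
    (h' : Monotone (fun i => toLex (P' i))) (hc : cc P = cc P') : P = P' := by
  classical
  have hm : (Finset.univ : Finset (Fin n)).val.map P = (Finset.univ : Finset (Fin n)).val.map P' := by
    ext p
    rw [Multiset.count_map, Multiset.count_map]
    have := congrFun hc p
    unfold cc at this
    simp only [Finset.card, Finset.filter_val] at this
    simpa [eq_comm] using this
  have hcard : ∀ a : ℤ ×ₗ ℤ, (Finset.univ.filter (fun j => toLex (P j) ≤ a)).card =
      (Finset.univ.filter (fun j => toLex (P' j) ≤ a)).card := by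
    intro a
    have h1 := Multiset.countP_map P (Finset.univ : Finset (Fin n)).val (fun q => toLex q ≤ a)
    have h2 := Multiset.countP_map P' (Finset.univ : Finset (Fin n)).val (fun q => toLex q ≤ a)
    rw [hm, h2] at h1
    simpa [Finset.card, Finset.filter_val] using h1.symm
  funext i
  have e1 : toLex (P' i) ≤ toLex (P i) := by
    rw [mono_le_iff h' (toLex (P i)) i, ← hcard, ← mono_le_iff h]
  have e2 : toLex (P i) ≤ toLex (P' i) := by
    rw [mono_le_iff h (toLex (P' i)) i, hcard, ← mono_le_iff h']
  exact toLex.injective (le_antisymm e2 e1)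

lemma perm_eq_id {n : ℕ} {α : Type*} (σ : Equiv.Perm (Fin n)) (Q : Fin n → α)
    (h1 : ∀ i, Q (σ i) = Q i) (h2 : ∀ i j, i < j → Q i = Q j → σ i < σ j) : ∀ i, σ i = i := by
  intro i
  induction i using WellFoundedLT.induction with
  | _ i ih =>
  rcases lt_trichotomy (σ i) i with h | h | h
  · have := ih _ h
    exact σ.injective this
  · exact h
  · exfalso
    have hk : σ (σ.symm i) = i := σ.apply_symm_apply i
    have h3 : i < σ.symm i := by
      rcases lt_trichotomy (σ.symm i) i with h4 | h4 | h4
      · have := ih _ h4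
        rw [hk] at this
        rw [← this] at h4; exact absurd h4 (lt_irrefl _)
      · rw [h4] at hk; rw [hk] at h; exact absurd h (lt_irrefl _)
      · exact h4
    have h5 := h1 (σ.symm i)
    rw [hk] at h5
    have := h2 _ _ h3 h5
    rw [hk] at this
    exact absurd h (not_lt.mpr this.le)

lemma inj_pair {n r : ℕ} {w w' : SP n} {f f' : Fin n → ℕ} (hw : IsInv w) (hw' : IsInv w')
    (hr : ∀ i, f i ≤ r)
    (h : Pw w f) (h' : Pw w' f') (hc : cc (PP w f) = cc (PP w' f')) : w = w' ∧ f = f' := by
  have hP : PP w f = PP w' f' := eq_of_cc (PP_mono hw h) (PP_mono hw' h') hc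
  have hf : f = f' := by
    funext i
    have := congrArg Prod.fst (congrFun hP i)
    simpa [PP] using this
  have hs : w.2 = w'.2 := by
    funext i
    have := congrFun hP i
    rcases hi : w.2 i with _ | _ <;> rcases hj : w'.2 i with _ | _
    · rfl
    · have h1 := PP_snd_nonneg (f := f) hi
      have h2 := PP_snd_neg hw' h' hj
      rw [this] at h1; omega
    · have h1 := PP_snd_neg hw h hi
      have h2 := PP_snd_nonneg (f := f') hj
      rw [this] at h1; omega
    · rfl
  have hσ : ∀ i, (w'.1 * w.1) i = i := by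
    -- `w'.1 * w.1` composes
    refine perm_eq_id _ (PP w f) ?_ ?_
    · intro i
      rw [Equiv.Perm.mul_apply]
      conv_lhs => rw [hP]
      rw [PP_io hw' h', ← hP, PP_io hw h, io_io (PP_mem hw hr h i)]
    · intro i j hij he
      rw [Equiv.Perm.mul_apply, Equiv.Perm.mul_apply]
      have hfe : f i = f j := by
        have := congrArg Prod.fst he
        simpa [PP] using this
      have hse : w.2 i = w.2 j := by
        rcases hi : w.2 i with _ | _ <;> rcases hj : w.2 j with _ | _
        · rfl
        · have h1 := PP_snd_nonneg (f := f) hi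
          have h2 := PP_snd_neg hw h hj
          rw [he] at h1; omega
        · have h1 := PP_snd_neg hw h hi
          have h2 := PP_snd_nonneg (f := f) hj
          rw [he] at h1; omega
        · rfl
      have hlt := (h.1 i j hij).2 hfe
      have hPe : PP w f (w.1 i) = PP w f (w.1 j) := by
        rw [PP_io hw h, PP_io hw h, he]
      have hfe' : f' (w.1 i) = f' (w.1 j) := by
        rw [← hf]
        have := congrArg Prod.fst hPe
        simpa [PP] using this
      rcases hi : w.2 i with _ | _
      · have hj : w.2 j = false := by rw [← hse, hi]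
        rw [wb_pos hi, wb_pos hj] at hlt
        have h3 := (h'.1 (w.1 i) (w.1 j) (by rw [Fin.lt_def]; omega)).2 hfe'
        have s1 : w'.2 (w.1 i) = false := by rw [← hs, (hw i).2, hi]
        have s2 : w'.2 (w.1 j) = false := by rw [← hs, (hw j).2, hj]
        rw [wb_pos s1, wb_pos s2] at h3
        rw [Fin.lt_def]; omega
      · have hj : w.2 j = true := by rw [← hse, hi]
        rw [wb_neg hi, wb_neg hj] at hlt
        have h3 := (h'.1 (w.1 j) (w.1 i) (by rw [Fin.lt_def]; omega)).2 hfe'.symm
        have s1 : w'.2 (w.1 i) = true := by rw [← hs, (hw i).2, hi]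
        have s2 : w'.2 (w.1 j) = true := by rw [← hs, (hw j).2, hj]
        rw [wb_neg s1, wb_neg s2] at h3
        rw [Fin.lt_def]; omega
  have hp : w.1 = w'.1 := by
    ext i
    have h1 := hσ i
    rw [Equiv.Perm.mul_apply] at h1
    have h2 := (hw' (w.1 i)).1
    rw [h1] at h2
    rw [← h2]
  exact ⟨Prod.ext hp hs, hf⟩

/-- existence of a monotone sequence of letters with given multiplicities -/
lemma exists_mono {n r : ℕ} {c : ℤ × ℤ → ℕ} (hc : c ∈ SF n r) :
    ∃ P : Fin n → ℤ × ℤ, Monotone (fun i => toLex (P i)) ∧ cc P = c := by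
  classical
  rw [mem_SF] at hc
  obtain ⟨⟨hs, hsup⟩, -⟩ := hc
  have hcard : Fintype.card (Σ p : {x // x ∈ Tr r}, Fin (c p.1)) = n := by
    rw [Fintype.card_sigma]
    simp only [Fintype.card_fin]
    rw [Finset.sum_coe_sort (Tr r) c, hs]
  let e : (Σ p : {x // x ∈ Tr r}, Fin (c p.1)) ≃ Fin n := Fintype.equivFinOfCardEq hcard
  let P0 : Fin n → ℤ × ℤ := fun i => (e.symm i).1.1
  have hP0 : cc P0 = c := by
    funext p
    by_cases hp : p ∈ Tr r
    · have hinj : Function.Injective (fun t : Fin (c p) => e ⟨⟨p, hp⟩, t⟩) := by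
        intro a b hab
        have := e.injective hab
        simpa using this
      have : (Finset.univ.filter (fun i => P0 i = p)) =
          (Finset.univ : Finset (Fin (c p))).image (fun t => e ⟨⟨p, hp⟩, t⟩) := by
        ext i
        simp only [Finset.mem_filter, Finset.mem_univ, true_and, Finset.mem_image]
        constructor
        · intro hi
          have h1 : (e.symm i).1 = ⟨p, hp⟩ := Subtype.ext hi
          rcases hx : e.symm i with ⟨q, t⟩
          rw [hx] at h1
          simp only [] at h1
          subst h1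
          exact ⟨t, by rw [← hx]; exact e.apply_symm_apply i⟩
        · rintro ⟨t, rfl⟩
          simp only [P0, Equiv.symm_apply_apply]
      show (Finset.univ.filter (fun i => P0 i = p)).card = c p
      rw [this, Finset.card_image_of_injective _ hinj]
      simp
    · have h1 : c p = 0 := by
        by_contra h
        exact hp (hsup p h)
      show (Finset.univ.filter (fun i => P0 i = p)).card = c p
      rw [h1, Finset.card_eq_zero, Finset.filter_eq_empty_iff]
      intro i _ hi
      exact hp (hi ▸ (e.symm i).1.2)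
  let σ := Tuple.sort (fun i => toLex (P0 i))
  refine ⟨fun i => P0 (σ i), Tuple.monotone_sort (fun i => toLex (P0 i)), ?_⟩
  rw [← hP0]
  funext p
  unfold cc
  refine Finset.card_nbij' (fun i => σ i) (fun i => σ.symm i) ?_ ?_ ?_ ?_
  · intro i hi
    simpa using hi
  · intro i hi
    simpa using hi
  · intro i _; simp
  · intro i _; simp

noncomputable def rk {n : ℕ} (P : Fin n → ℤ × ℤ) (i : Fin n) : ℕ :=
  (Finset.univ.filter (fun j => j < i ∧ P j = P i)).card

section rank
variable {n : ℕ} {P : Fin n → ℤ × ℤ}

lemma rk_lt (i : Fin n) : rk P i < cc P (P i) := by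
  classical
  unfold rk cc
  apply Finset.card_lt_card
  rw [Finset.ssubset_iff_of_subset]
  · exact ⟨i, by simp, by simp⟩
  · intro j hj
    rw [Finset.mem_filter] at hj ⊢
    exact ⟨hj.1, hj.2.2⟩

lemma rk_strict {i j : Fin n} (h : i < j) (he : P i = P j) : rk P i < rk P j := by
  classical
  unfold rk
  apply Finset.card_lt_card
  rw [Finset.ssubset_iff_of_subset]
  · exact ⟨i, by simp [h, he], by simp⟩
  · intro k hk
    rw [Finset.mem_filter] at hk ⊢
    exact ⟨hk.1, hk.2.1.trans h, hk.2.2.trans he⟩

lemma rk_inj {i j : Fin n} (he : P i = P j) (hr : rk P i = rk P j) : i = j := by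
  rcases lt_trichotomy i j with h | h | h
  · have := rk_strict h he; omega
  · exact h
  · have := rk_strict h he.symm; omega

lemma lt_of_rk {i j : Fin n} (he : P i = P j) (hr : rk P i < rk P j) : i < j := by
  rcases lt_trichotomy i j with h | h | h
  · exact h
  · rw [h] at hr; omega
  · have := rk_strict h he.symm; omega

lemma rk_surj (p : ℤ × ℤ) (t : ℕ) (ht : t < cc P p) : ∃ j, P j = p ∧ rk P j = t := by
  classical
  have h1 : (Finset.univ.filter (fun i => P i = p)).image (rk P) = Finset.range (cc P p) := by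
    apply Finset.eq_of_subset_of_card_le
    · intro x hx
      rw [Finset.mem_image] at hx
      obtain ⟨i, hi, rfl⟩ := hx
      rw [Finset.mem_filter] at hi
      rw [Finset.mem_range, ← hi.2]
      exact rk_lt i
    · rw [Finset.card_range, Finset.card_image_of_injOn]
      · rfl
      · intro i hi j hj h
        simp only [Finset.coe_filter, Finset.mem_univ, true_and, Set.mem_ofPred_eq] at hi hj
        exact rk_inj (hi.trans hj.symm) h
  have h2 : t ∈ (Finset.univ.filter (fun i => P i = p)).image (rk P) := by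
    rw [h1, Finset.mem_range]; exact ht
  rw [Finset.mem_image] at h2
  obtain ⟨j, hj, hjt⟩ := h2
  rw [Finset.mem_filter] at hj
  exact ⟨j, hj.2, hjt⟩

end rank

lemma surj_pair {n r : ℕ} {c : ℤ × ℤ → ℕ} (hc : c ∈ SF n r) :
    ∃ (w : SP n) (f : Fin n → ℕ), IsInv w ∧ (∀ i, f i ≤ r) ∧ Pw w f ∧ cc (PP w f) = c := by
  classical
  obtain ⟨P, hmono, hcc⟩ := exists_mono hc
  rw [mem_SF] at hc
  obtain ⟨⟨hs, hsup⟩, hsym⟩ := hc
  have hmem : ∀ i, P i ∈ Tr r := by
    intro i
    apply hsup
    rw [← hcc]
    have := rk_lt (P := P) i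
    omega
  have hsym' : ∀ i, cc P (io (P i)) = cc P (P i) := by
    intro i
    rw [hcc, hsym _ (hmem i)]
  have hfst_lt : ∀ i j, (P i).1 < (P j).1 → i < j := by
    intro i j h
    by_contra hc
    have := hmono (not_lt.mp hc)
    simp only [Prod.Lex.toLex_le_toLex] at this
    omega
  have hex : ∀ i, ∃ j, P j = io (P i) ∧
      rk P j = if 0 ≤ (P i).2 then rk P i else cc P (P i) - 1 - rk P i := by
    intro i
    apply rk_surj
    rw [hsym' i]
    have := rk_lt (P := P) i
    split_ifs <;> omega
  choose v hv1 hv2 using hex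
  have hio2 : ∀ i, (0 ≤ (io (P i)).2 ↔ 0 ≤ (P i).2) := by
    intro i
    have := hmem i
    rw [mem_Tr] at this
    unfold io
    split_ifs with h0
    · simp [h0, this.1.1]
    · simp only [h0, iff_false]
      omega
  have hvv : ∀ i, v (v i) = i := by
    intro i
    have h1 : P (v (v i)) = P i := by rw [hv1, hv1, io_io (hmem i)]
    apply rk_inj h1
    rw [hv2 (v i), hv1 i]
    have h2 := hv2 i
    have h3 := rk_lt (P := P) i
    by_cases h0 : 0 ≤ (P i).2
    · rw [if_pos ((hio2 i).mpr h0), h2, if_pos h0]
    · rw [if_neg (fun h => h0 ((hio2 i).mp h)), h2, if_neg h0, hsym' i]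
      omega
  let w : SP n := (Function.Involutive.toPerm v hvv, fun i => decide ((P i).2 < 0))
  let f : Fin n → ℕ := fun i => (P i).1.toNat
  have hw1 : ∀ i, w.1 i = v i := fun i => rfl
  have hw2 : ∀ i, w.2 i = decide ((P i).2 < 0) := fun i => rfl
  have hf : ∀ i, (f i : ℤ) = (P i).1 := by
    intro i
    have := hmem i
    rw [mem_Tr] at this
    exact Int.toNat_of_nonneg this.1.1
  have hInv : IsInv w := by
    intro i
    refine ⟨by rw [hw1, hw1, hvv], ?_⟩
    rw [hw1, hw2, hw2, hv1]
    congr 1
    have := hio2 i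
    rw [← not_le, ← not_le, this]
  have hPP : PP w f = P := by
    funext i
    unfold PP
    rw [hf, hw1, hf, hv1, hw2]
    have := hmem i
    rw [mem_Tr] at this
    refine Prod.ext rfl ?_
    simp only [decide_eq_true_eq]
    unfold io
    by_cases h0 : 0 ≤ (P i).2
    · rw [if_neg (not_lt.mpr h0), if_pos h0]; simp
    · rw [if_pos (not_le.mp h0), if_neg h0]; simp
  refine ⟨w, f, hInv, ?_, ⟨?_, ?_⟩, by rw [hPP, hcc]⟩
  · intro i
    have h1 := hmem i
    rw [mem_Tr] at h1
    have := hf i
    omega
  · intro i j hij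
    have h1 := hmono hij.le
    simp only [Prod.Lex.toLex_le_toLex] at h1
    have hfi := hf i
    have hfj := hf j
    refine ⟨by omega, fun he => ?_⟩
    have he1 : (P i).1 = (P j).1 := by omega
    have h2 : (P i).2 ≤ (P j).2 := by
      rcases h1 with h1 | h1
      · omega
      · exact h1.2
    have wi1 : w.1 i = v i := hw1 i
    have wj1 : w.1 j = v j := hw1 j
    by_cases hj0 : 0 ≤ (P j).2
    · have sj : w.2 j = false := by rw [hw2]; simpa using hj0
      rw [wb_pos sj]
      by_cases hi0 : 0 ≤ (P i).2
      · have si : w.2 i = false := by rw [hw2]; simpa using hi0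
        rw [wb_pos si, wi1, wj1]
        have : v i < v j := by
          rcases h2.lt_or_eq with h3 | h3
          · apply hfst_lt
            rw [hv1, hv1, io, io, if_pos hi0, if_pos hj0]
            exact h3
          · have h4 : P i = P j := Prod.ext he1 h3
            apply lt_of_rk (P := P)
            · rw [hv1, hv1, h4]
            · rw [hv2, hv2, if_pos hi0, if_pos hj0]
              exact rk_strict hij h4
        rw [Fin.lt_def] at this
        omega
      · have si : w.2 i = true := by rw [hw2]; simpa using hi0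
        rw [wb_neg si]
        omega
    · have hi0 : ¬ 0 ≤ (P i).2 := by omega
      have sj : w.2 j = true := by rw [hw2]; simpa using hj0
      have si : w.2 i = true := by rw [hw2]; simpa using hi0
      rw [wb_neg si, wb_neg sj, wi1, wj1]
      have : v j < v i := by
        rcases h2.lt_or_eq with h3 | h3
        · apply hfst_lt
          rw [hv1, hv1, io, io, if_neg hi0, if_neg hj0]
          simp only []
          omega
        · have h4 : P i = P j := Prod.ext he1 h3
          apply lt_of_rk (P := P)
          · rw [hv1, hv1, h4]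
          · rw [hv2, hv2, if_neg hi0, if_neg hj0, h4]
            have h5 := rk_strict hij h4
            have h6 := rk_lt (P := P) j
            omega
      rw [Fin.lt_def] at this
      omega
  · intro i hi
    have h1 := hmem i
    rw [mem_Tr] at h1
    have h2 := hf i
    rw [hw2]
    have := h1.2.2 (by omega)
    simpa using this

open Classical in
noncomputable def InvS (n : ℕ) : Finset (SP n) := Finset.univ.filter (fun w => IsInv w)

theorem sum_chains (n r : ℕ) :
    ∑ w ∈ InvS n, (chains n (DD w) r).card = (SF n r).card := by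
  classical
  rw [← Finset.card_sigma]
  refine Finset.card_bij (fun x _ => cc (PP x.1 x.2)) ?_ ?_ ?_
  · rintro ⟨w, f⟩ hx
    rw [Finset.mem_sigma, InvS, Finset.mem_filter, mem_chains, chain_iff] at hx
    exact cc_mem hx.1.2 hx.2.1 hx.2.2
  · rintro ⟨w, f⟩ hx ⟨w', f'⟩ hx' he
    rw [Finset.mem_sigma, InvS, Finset.mem_filter, mem_chains, chain_iff] at hx hx'
    obtain ⟨h1, h2⟩ := inj_pair hx.1.2 hx'.1.2 hx.2.1 hx.2.2 hx'.2.2 he
    subst h1 h2
    rfl
  · intro c hc
    obtain ⟨w, f, h1, h2, h3, h4⟩ := surj_pair hc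
    refine ⟨⟨w, f⟩, ?_, h4⟩
    rw [Finset.mem_sigma, InvS, Finset.mem_filter, mem_chains, chain_iff]
    exact ⟨⟨Finset.mem_univ _, h1⟩, h2, h3⟩

end Pool.Agent.N404.TB
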