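import Mathlib

set_option autoImplicit false

namespace Pool.Agent.N404.TB

/-- weakly increasing sequences starting above `0`, strict at positions in `D`. -/
def Chain (n : ℕ) (D : ℕ → Prop) (f : Fin n → ℕ) : Prop :=
  (∀ i : Fin n, i.val = 0 → D 0 → 0 < f i) ∧
  ∀ i j : Fin n, j.val = i.val + 1 → f i ≤ f j ∧ (D j.val → f i < f j)

open Classical in
noncomputable def chains (n : ℕ) (D : ℕ → Prop) (r : ℕ) : Finset (Fin n → ℕ) :=
  (Fintype.piFinset (fun _ : Fin n => Finset.range (r + 1))).filter (Chain n D)

lemma mem_chains {n : ℕ} {D : ℕ → Prop} {r : ℕ} {f : Fin n → ℕ} :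
    f ∈ chains n D r ↔ (∀ i, f i ≤ r) ∧ Chain n D f := by
  classical
  simp [chains, Fintype.mem_piFinset]

lemma chain_le_last {n : ℕ} {D : ℕ → Prop} {f : Fin (n + 1) → ℕ} (h : Chain (n + 1) D f)
    (i : Fin (n + 1)) : f i ≤ f (Fin.last n) := by
  have key : ∀ k : ℕ, ∀ hk : k ≤ n, f ⟨n - k, by omega⟩ ≤ f (Fin.last n) := by
    intro k
    induction k with
    | zero => intro hk; exact le_of_eq (by congr)
    | succ k ih =>
      intro hk
      have h1 := (h.2 ⟨n - (k + 1), by omega⟩ ⟨n - k, by omega⟩ (by simp; omega)).1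
      exact h1.trans (ih (by omega))
  have := key (n - i.val) (by omega)
  have h2 : (⟨n - (n - i.val), by omega⟩ : Fin (n + 1)) = i := by
    ext; simp; omega
  rwa [h2] at this

lemma chain_init {n : ℕ} {D : ℕ → Prop} {f : Fin (n + 1) → ℕ} (h : Chain (n + 1) D f) :
    Chain n D (fun i => f i.castSucc) := by
  refine ⟨fun i hi hD => h.1 _ (by simpa using hi) hD, fun i j hij => ?_⟩
  have := h.2 i.castSucc j.castSucc (by simpa using hij)
  simpa using this

open Classical in
noncomputable def dcount (D : ℕ → Prop) (n : ℕ) : ℕ := ((Finset.range n).filter D).card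

lemma dcount_le (D : ℕ → Prop) (n : ℕ) : dcount D n ≤ n := by
  classical
  unfold dcount
  exact (Finset.card_filter_le _ _).trans (by simp)

lemma dcount_succ_of {D : ℕ → Prop} {n : ℕ} (h : D n) : dcount D (n + 1) = dcount D n + 1 := by
  classical
  unfold dcount
  rw [Finset.range_add_one, Finset.filter_insert, if_pos h, Finset.card_insert_of_notMem]
  simp

lemma dcount_succ_of_not {D : ℕ → Prop} {n : ℕ} (h : ¬ D n) : dcount D (n + 1) = dcount D n := by
  classical
  unfold dcount
  rw [Finset.range_add_one, Finset.filter_insert, if_neg h]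

/-- snoc of a chain -/
lemma chain_snoc {n : ℕ} {D : ℕ → Prop} {g : Fin n → ℕ} {v : ℕ} (h : Chain n D g)
    (hv : ∀ i, g i ≤ v) (hD : D n → (0 < v ∧ ∀ i, g i < v)) :
    Chain (n + 1) D (Fin.snoc g v : Fin (n + 1) → ℕ) := by
  refine ⟨fun i hi h0 => ?_, fun i j hij => ?_⟩
  · rcases Fin.eq_castSucc_or_eq_last i with ⟨i', rfl⟩ | rfl
    · rw [Fin.snoc_castSucc (α := fun _ => ℕ)]
      exact h.1 i' (by simpa using hi) h0
    · rw [Fin.snoc_last (α := fun _ => ℕ)]
      have : n = 0 := by simpa using hi
      subst this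
      exact (hD h0).1
  · rcases Fin.eq_castSucc_or_eq_last i with ⟨i', rfl⟩ | rfl
    · rw [Fin.snoc_castSucc (α := fun _ => ℕ)]
      rcases Fin.eq_castSucc_or_eq_last j with ⟨j', rfl⟩ | rfl
      · rw [Fin.snoc_castSucc (α := fun _ => ℕ)]
        have := h.2 i' j' (by simpa using hij)
        simpa using this
      · rw [Fin.snoc_last (α := fun _ => ℕ)]
        refine ⟨hv _, fun hd => (hD (by simpa using hd)).2 _⟩
    · exfalso
      have := j.isLt
      simp at hij
      omega

/-- The set of chains of length `n+1` with last value exactly `r`. -/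
lemma card_last_eq_of_not {n : ℕ} {D : ℕ → Prop} (hD : ¬ D n) (r : ℕ) :
    ((chains (n + 1) D r).filter (fun f => f (Fin.last n) = r)).card = (chains n D r).card := by
  classical
  refine Finset.card_nbij' (fun f i => f i.castSucc) (fun g => (Fin.snoc g r : Fin (n + 1) → ℕ))
    ?_ ?_ ?_ ?_
  · intro f hf
    rw [Finset.mem_coe, Finset.mem_filter, mem_chains] at hf
    rw [Finset.mem_coe, mem_chains]
    exact ⟨fun i => hf.1.1 _, chain_init hf.1.2⟩
  · intro g hg
    rw [Finset.mem_coe, mem_chains] at hg
    rw [Finset.mem_coe, Finset.mem_filter, mem_chains]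
    refine ⟨⟨fun i => ?_, chain_snoc hg.2 hg.1 (fun h => absurd h hD)⟩, by simp⟩
    rcases Fin.eq_castSucc_or_eq_last i with ⟨i', rfl⟩ | rfl
    · simpa using hg.1 _
    · simp
  · intro f hf
    rw [Finset.mem_coe, Finset.mem_filter, mem_chains] at hf
    funext i
    rcases Fin.eq_castSucc_or_eq_last i with ⟨i', rfl⟩ | rfl
    · simp
    · simpa using hf.2.symm
  · intro g hg
    funext i
    simp

lemma card_last_eq_of_zero {n : ℕ} {D : ℕ → Prop} (hD : D n) :
    ((chains (n + 1) D 0).filter (fun f => f (Fin.last n) = 0)).card = 0 := by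
  classical
  rw [Finset.card_eq_zero, Finset.filter_eq_empty_iff]
  intro f hf h0
  rw [mem_chains] at hf
  rcases n with _ | n
  · have := hf.2.1 (Fin.last 0) rfl hD
    omega
  · have := (hf.2.2 (Fin.castSucc (Fin.last n)) (Fin.last (n + 1)) (by simp)).2 (by simpa using hD)
    omega

lemma card_last_eq_of_succ {n : ℕ} {D : ℕ → Prop} (hD : D n) (r : ℕ) :
    ((chains (n + 1) D (r + 1)).filter (fun f => f (Fin.last n) = r + 1)).card
      = (chains n D r).card := by
  classical
  refine Finset.card_nbij' (fun f i => f i.castSucc) (fun g => (Fin.snoc g (r + 1) : Fin (n + 1) → ℕ))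
    ?_ ?_ ?_ ?_
  · intro f hf
    rw [Finset.mem_coe, Finset.mem_filter, mem_chains] at hf
    rw [Finset.mem_coe, mem_chains]
    refine ⟨fun i => ?_, chain_init hf.1.2⟩
    rcases n with _ | n
    · exact i.elim0
    · have h1 := chain_le_last (chain_init hf.1.2) i
      have h2 := (hf.1.2.2 (Fin.castSucc (Fin.last n)) (Fin.last (n + 1)) (by simp)).2
        (by simpa using hD)
      have h3 := hf.2
      show f i.castSucc ≤ r
      omega
  · intro g hg
    rw [Finset.mem_coe, mem_chains] at hg
    rw [Finset.mem_coe, Finset.mem_filter, mem_chains]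
    refine ⟨⟨fun i => ?_, chain_snoc hg.2 (fun i => (hg.1 i).trans (Nat.le_succ r))
      (fun _ => ⟨Nat.succ_pos r, fun i => Nat.lt_succ_of_le (hg.1 i)⟩)⟩, by simp⟩
    rcases Fin.eq_castSucc_or_eq_last i with ⟨i', rfl⟩ | rfl
    · simpa using (hg.1 _).trans (Nat.le_succ r)
    · simp
  · intro f hf
    rw [Finset.mem_coe, Finset.mem_filter, mem_chains] at hf
    funext i
    rcases Fin.eq_castSucc_or_eq_last i with ⟨i', rfl⟩ | rfl
    · simp
    · simpa using hf.2.symm
  · intro g hg
    funext i
    simp

lemma card_last_ne_zero {n : ℕ} {D : ℕ → Prop} :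
    ((chains (n + 1) D 0).filter (fun f => ¬ f (Fin.last n) = 0)).card = 0 := by
  classical
  rw [Finset.card_eq_zero, Finset.filter_eq_empty_iff]
  intro f hf h0
  rw [mem_chains] at hf
  exact h0 (Nat.le_zero.mp (hf.1 _))

lemma card_last_ne_succ {n : ℕ} {D : ℕ → Prop} (r : ℕ) :
    ((chains (n + 1) D (r + 1)).filter (fun f => ¬ f (Fin.last n) = r + 1)).card
      = (chains (n + 1) D r).card := by
  classical
  congr 1
  ext f
  rw [Finset.mem_filter, mem_chains, mem_chains]
  constructor
  · rintro ⟨⟨h1, h2⟩, h3⟩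
    refine ⟨fun i => ?_, h2⟩
    have h4 := chain_le_last h2 i
    have h5 := h1 (Fin.last n)
    omega
  · rintro ⟨h1, h2⟩
    refine ⟨⟨fun i => (h1 i).trans (Nat.le_succ r), h2⟩, ?_⟩
    have := h1 (Fin.last n)
    omega

theorem card_chains (n : ℕ) (D : ℕ → Prop) : ∀ r : ℕ,
    (chains n D r).card = (n + r - dcount D n).choose n := by
  classical
  induction n with
  | zero =>
    intro r
    have : chains 0 D r = {fun i => i.elim0} := by
      ext f
      rw [mem_chains, Finset.mem_singleton]
      constructor
      · intro _; funext i; exact i.elim0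
      · intro _; exact ⟨fun i => i.elim0, fun i => i.elim0, fun i => i.elim0⟩
    rw [this]
    simp
  | succ n ih =>
    have hle := dcount_le D n
    have split : ∀ r, (chains (n + 1) D r).card =
        ((chains (n + 1) D r).filter (fun f => f (Fin.last n) = r)).card +
        ((chains (n + 1) D r).filter (fun f => ¬ f (Fin.last n) = r)).card := by
      intro r
      exact (Finset.card_filter_add_card_filter_not _).symm
    by_cases hD : D n
    · rw [dcount_succ_of hD]
      intro r
      induction r with
      | zero =>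
        rw [split, card_last_eq_of_zero hD, card_last_ne_zero]
        rw [Nat.choose_eq_zero_of_lt (by omega)]
      | succ r ihr =>
        rw [split, card_last_eq_of_succ hD, card_last_ne_succ, ihr, ih]
        have e1 : n + 1 + (r + 1) - (dcount D n + 1) = (n + r - dcount D n) + 1 := by omega
        have e2 : n + 1 + r - (dcount D n + 1) = n + r - dcount D n := by omega
        rw [e1, e2, Nat.choose_succ_succ]
    · rw [dcount_succ_of_not hD]
      intro r
      induction r with
      | zero =>
        rw [split, card_last_eq_of_not hD, card_last_ne_zero, ih]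
        rcases Nat.eq_zero_or_pos (dcount D n) with h | h
        · rw [h]; simp
        · rw [Nat.choose_eq_zero_of_lt (by omega), Nat.choose_eq_zero_of_lt (by omega)]
      | succ r ihr =>
        rw [split, card_last_eq_of_not hD, card_last_ne_succ, ihr, ih]
        have e1 : n + 1 + (r + 1) - dcount D n = (n + 1 + r - dcount D n) + 1 := by omega
        have e2 : n + (r + 1) - dcount D n = n + 1 + r - dcount D n := by omega
        rw [e1, e2, Nat.choose_succ_succ]

end Pool.Agent.N404.TB
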