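import Pool.Agent.N404.TB.Gam
import Pool.Agent.N404.TB.Bij

set_option autoImplicit false

namespace Pool.Agent.N404.TB
open PowerSeries

noncomputable def A (n : ℕ) : ℚ⟦X⟧ := ∑ k ∈ Finset.range (n + 1), gam n k • E k (n - 2 * k)

lemma A_ext (n M : ℕ) (h : n + 1 ≤ M) :
    A n = ∑ k ∈ Finset.range M, gam n k • E k (n - 2 * k) := by
  unfold A
  apply Finset.sum_subset (Finset.range_mono h)
  intro k _ hk
  rw [Finset.mem_range, not_lt] at hk
  rw [gam_supp n k (by omega), zero_smul]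

lemma shift_sum (M : ℕ) (b : ℕ → ℚ) (F : ℕ → ℚ⟦X⟧) :
    ∑ k ∈ Finset.range M, b k • F (k + 1) = ∑ k ∈ Finset.range (M + 1), sh b k • F k := by
  rw [Finset.sum_range_succ']
  simp

lemma ext_sum (M M' : ℕ) (h : M ≤ M') (b : ℕ → ℚ) (F : ℕ → ℚ⟦X⟧) (hb : ∀ k, M ≤ k → b k = 0) :
    ∑ k ∈ Finset.range M, b k • F k = ∑ k ∈ Finset.range M', b k • F k := by
  apply Finset.sum_subset (Finset.range_mono h)
  intro k _ hk
  rw [Finset.mem_range, not_lt] at hk
  rw [hb k hk, zero_smul]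

lemma T_term (n k : ℕ) : gam (n + 1) k • T (E k (n + 1 - 2 * k)) =
    ((2 * (k:ℚ) + 1) * gam (n + 1) k) • E k (n + 2 - 2 * k) +
    ((4 * ((n:ℚ) + 1 - 2 * k)) * gam (n + 1) k) • E (k + 1) (n + 2 - 2 * (k + 1)) := by
  rcases lt_trichotomy (n + 1) (2 * k) with h | h | h
  · rw [gam_supp _ _ h]; simp
  · have e1 : n + 1 - 2 * k = 0 := by omega
    have e2 : n + 2 - 2 * k = 1 := by omega
    have e3 : (n:ℚ) + 1 - 2 * k = 0 := by
      have : ((n + 1 : ℕ) : ℚ) = ((2 * k : ℕ) : ℚ) := by rw [h]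
      push_cast at this
      linarith
    rw [e1, e2, e3, T_E_zero', smul_smul]
    module
  · obtain ⟨j, hj⟩ : ∃ j, n = 2 * k + j := ⟨n - 2 * k, by omega⟩
    subst hj
    have e1 : 2 * k + j + 1 - 2 * k = j + 1 := by omega
    have e2 : 2 * k + j + 2 - 2 * k = j + 2 := by omega
    have e3 : 2 * k + j + 2 - 2 * (k + 1) = j := by omega
    rw [e1, e2, e3, T_E_succ']
    push_cast
    module

lemma Q_term (n k : ℕ) : gam n k • Q n (E k (n - 2 * k)) =
    ((2 * (k:ℚ) ^ 2 + 2 * k + n + 1) * gam n k) • E k (n + 2 - 2 * k) +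
    ((4 * ((2 * (k:ℚ) + 1) * ((n:ℚ) - 2 * k) - k)) * gam n k) • E (k + 1) (n + 2 - 2 * (k + 1)) +
    ((8 * ((n:ℚ) - 2 * k) * ((n:ℚ) - 2 * k - 1)) * gam n k) •
      E (k + 1 + 1) (n + 2 - 2 * (k + 1 + 1)) := by
  by_cases h : n < 2 * k
  · rw [gam_supp _ _ h]; simp
  · obtain ⟨j, hj⟩ : ∃ j, n = 2 * k + j := ⟨n - 2 * k, by omega⟩
    subst hj
    rcases j with _ | _ | j
    · have e1 : 2 * k + 0 - 2 * k = 0 := by omega
      have e2 : 2 * k + 0 + 2 - 2 * k = 2 := by omega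
      have e3 : 2 * k + 0 + 2 - 2 * (k + 1) = 0 := by omega
      rw [e1, e2, e3, Nat.add_zero, Q_E_zero]
      push_cast
      module
    · have e1 : 2 * k + (0 + 1) - 2 * k = 1 := by omega
      have e2 : 2 * k + (0 + 1) + 2 - 2 * k = 3 := by omega
      have e3 : 2 * k + (0 + 1) + 2 - 2 * (k + 1) = 1 := by omega
      rw [e1, e2, e3, Nat.zero_add, Q_E_one]
      push_cast
      module
    · have e1 : 2 * k + (j + 1 + 1) - 2 * k = j + 2 := by omega
      have e2 : 2 * k + (j + 1 + 1) + 2 - 2 * k = j + 4 := by omega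
      have e3 : 2 * k + (j + 1 + 1) + 2 - 2 * (k + 1) = j + 2 := by omega
      have e4 : 2 * k + (j + 1 + 1) + 2 - 2 * (k + 1 + 1) = j := by omega
      rw [e1, e2, e3, e4, show 2 * k + (j + 1 + 1) = 2 * k + (j + 2) by ring, Q_E_two]
      push_cast
      module

lemma Q_smul (n : ℕ) (a : ℚ) (F : ℚ⟦X⟧) : Q n (a • F) = a • Q n F := by
  rw [← hC_eq, Q_C_mul, hC_eq]

theorem A_rec (n : ℕ) : ((n:ℚ) + 2) • A (n + 2) = T (A (n + 1)) + Q n (A n) := by
  rw [A_ext (n + 2) (n + 5) (by omega), A_ext (n + 1) (n + 3) (by omega),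
    A_ext n (n + 3) (by omega), T_sum, Q_sum]
  simp only [T_smul, Q_smul, T_term, Q_term]
  rw [Finset.sum_add_distrib, Finset.sum_add_distrib, Finset.sum_add_distrib]
  rw [shift_sum (n + 3) (fun k => (4 * ((n:ℚ) + 1 - 2 * k)) * gam (n + 1) k)
    (fun k => E k (n + 2 - 2 * k))]
  rw [shift_sum (n + 3) (fun k => (4 * ((2 * (k:ℚ) + 1) * ((n:ℚ) - 2 * k) - k)) * gam n k)
    (fun k => E k (n + 2 - 2 * k))]
  rw [shift_sum (n + 3) (fun k => (8 * ((n:ℚ) - 2 * k) * ((n:ℚ) - 2 * k - 1)) * gam n k)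
    (fun k => E (k + 1) (n + 2 - 2 * (k + 1)))]
  rw [shift_sum (n + 3 + 1) (sh (fun k => (8 * ((n:ℚ) - 2 * k) * ((n:ℚ) - 2 * k - 1)) * gam n k))
    (fun k => E k (n + 2 - 2 * k))]
  rw [ext_sum (n + 3) (n + 5) (by omega) (fun k => (2 * (k:ℚ) + 1) * gam (n + 1) k)
    (fun k => E k (n + 2 - 2 * k)) (fun k hk => by
      rw [gam_supp _ _ (by omega), mul_zero])]
  rw [ext_sum (n + 3) (n + 5) (by omega) (fun k => (2 * (k:ℚ) ^ 2 + 2 * k + n + 1) * gam n k)
    (fun k => E k (n + 2 - 2 * k)) (fun k hk => by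
      rw [gam_supp _ _ (by omega), mul_zero])]
  rw [ext_sum (n + 3 + 1) (n + 5) (by omega)
    (sh (fun k => (4 * ((n:ℚ) + 1 - 2 * k)) * gam (n + 1) k))
    (fun k => E k (n + 2 - 2 * k)) (fun k hk => by
      obtain ⟨k, rfl⟩ : ∃ k', k = k' + 1 := ⟨k - 1, by omega⟩
      rw [sh_succ, gam_supp _ _ (by omega), mul_zero])]
  rw [ext_sum (n + 3 + 1) (n + 5) (by omega)
    (sh (fun k => (4 * ((2 * (k:ℚ) + 1) * ((n:ℚ) - 2 * k) - k)) * gam n k))
    (fun k => E k (n + 2 - 2 * k)) (fun k hk => by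
      obtain ⟨k, rfl⟩ : ∃ k', k = k' + 1 := ⟨k - 1, by omega⟩
      rw [sh_succ, gam_supp _ _ (by omega), mul_zero])]
  rw [Finset.smul_sum, ← Finset.sum_add_distrib, ← Finset.sum_add_distrib,
    ← Finset.sum_add_distrib, ← Finset.sum_add_distrib]
  refine Finset.sum_congr rfl (fun k _ => ?_)
  rw [smul_smul, gam_rec]
  module

noncomputable def NS (n : ℕ) : ℚ⟦X⟧ := mk (fun r => ((SF n r).card : ℚ))

lemma A_zero : A 0 = U := by
  unfold A
  simp [gam_zero', E]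

lemma A_one : A 1 = T U := by
  have h : E 0 0 = U := by simp [E]
  rw [← h, T_E_zero']
  unfold A
  rw [Finset.sum_range_succ, Finset.sum_range_one, gam_one', gam_one']
  simp

theorem NS_eq_A : ∀ n, NS n = A n := by
  intro n
  induction n using Nat.strong_induction_on with
  | _ n ih =>
  match n, ih with
  | 0, _ =>
    rw [A_zero]
    ext r
    simp [NS, U, SF_zero]
  | 1, _ =>
    rw [A_one]
    ext r
    rw [coeff_T]
    simp [NS, U, SF_one]
  | n + 2, ih =>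
    have h1 := ih (n + 1) (by omega)
    have h0 := ih n (by omega)
    have h2 : ((n:ℚ) + 2) • NS (n + 2) = ((n:ℚ) + 2) • A (n + 2) := by
      rw [A_rec, ← h1, ← h0]
      ext r
      rw [map_add, coeff_T, coeff_Q]
      simp only [NS, coeff_mk, map_smul, smul_eq_mul]
      have := SF_rec n r
      have h3 : (((n + 2) * (SF (n + 2) r).card : ℕ) : ℚ) =
        (((n + 2 * r ^ 2 + 2 * r + 1) * (SF n r).card + (2 * r + 1) * (SF (n + 1) r).card : ℕ) : ℚ) := by
        rw [this]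
      push_cast at h3
      linear_combination h3
    have hn : ((n:ℚ) + 2) ≠ 0 := by positivity
    exact smul_right_injective _ hn h2

noncomputable def IQ (n : ℕ) : Polynomial ℚ :=
  ∑ w ∈ InvS n, (Polynomial.X : Polynomial ℚ) ^ (dcount (DD w) n)

noncomputable def GQ (n : ℕ) : Polynomial ℚ :=
  ∑ k ∈ Finset.range (n / 2 + 1),
    Polynomial.C (gam n k) * Polynomial.X ^ k * (1 + Polynomial.X) ^ (n - 2 * k)

lemma X_pow_U (n d : ℕ) (hd : d ≤ n) (r : ℕ) :
    coeff r ((X : ℚ⟦X⟧) ^ d * U ^ (n + 1)) = (((n + r - d).choose n : ℕ) : ℚ) := by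
  unfold U
  rw [mk_one_pow_eq_mk_choose_add, coeff_X_pow_mul']
  split_ifs with h
  · rw [coeff_mk]
    congr 2
    omega
  · rw [Nat.choose_eq_zero_of_lt (by omega)]
    simp

lemma IQ_mul (n : ℕ) : (IQ n : ℚ⟦X⟧) * U ^ (n + 1) = NS n := by
  ext r
  have h : (IQ n : ℚ⟦X⟧) = ∑ w ∈ InvS n, (X : ℚ⟦X⟧) ^ (dcount (DD w) n) := by
    unfold IQ
    rw [← Polynomial.coeToPowerSeries.ringHom_apply, map_sum]
    refine Finset.sum_congr rfl (fun w _ => ?_)
    rw [map_pow]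
    simp
  rw [h, Finset.sum_mul, map_sum, NS, coeff_mk, ← sum_chains]
  push_cast
  refine Finset.sum_congr rfl (fun w _ => ?_)
  rw [X_pow_U n _ (dcount_le _ _), card_chains]

lemma GQ_mul (n : ℕ) : (GQ n : ℚ⟦X⟧) * U ^ (n + 1) = A n := by
  have h : (GQ n : ℚ⟦X⟧) = ∑ k ∈ Finset.range (n / 2 + 1),
      C (gam n k) * (X : ℚ⟦X⟧) ^ k * (1 + X) ^ (n - 2 * k) := by
    unfold GQ
    rw [← Polynomial.coeToPowerSeries.ringHom_apply, map_sum]
    refine Finset.sum_congr rfl (fun w _ => ?_)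
    rw [map_mul, map_mul, map_pow, map_pow, map_add]
    simp
  have h2 : A n = ∑ k ∈ Finset.range (n / 2 + 1), gam n k • E k (n - 2 * k) := by
    unfold A
    symm
    apply Finset.sum_subset (Finset.range_mono (by omega))
    intro k _ hk
    rw [Finset.mem_range, not_lt] at hk
    rw [gam_supp n k (by omega), zero_smul]
  rw [h, h2, Finset.sum_mul]
  refine Finset.sum_congr rfl (fun k hk => ?_)
  rw [Finset.mem_range] at hk
  rw [← hC_eq, E, show 2 * k + (n - 2 * k) + 1 = n + 1 by omega]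
  ring

theorem IQ_eq_GQ (n : ℕ) : IQ n = GQ n := by
  have h : (IQ n : ℚ⟦X⟧) * U ^ (n + 1) = (GQ n : ℚ⟦X⟧) * U ^ (n + 1) := by
    rw [IQ_mul, GQ_mul, NS_eq_A]
  have h2 : (IQ n : ℚ⟦X⟧) = (GQ n : ℚ⟦X⟧) := by
    have h3 : U ^ (n + 1) * (1 - X) ^ (n + 1) = 1 := by
      rw [← mul_pow, U_mul, one_pow]
    calc (IQ n : ℚ⟦X⟧) = ((IQ n : ℚ⟦X⟧) * U ^ (n + 1)) * (1 - X) ^ (n + 1) := by
          rw [mul_assoc, h3, mul_one]
      _ = ((GQ n : ℚ⟦X⟧) * U ^ (n + 1)) * (1 - X) ^ (n + 1) := by rw [h]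
      _ = (GQ n : ℚ⟦X⟧) := by rw [mul_assoc, h3, mul_one]
  exact Polynomial.coe_injective ℚ h2

noncomputable def IZ (n : ℕ) : Polynomial ℤ :=
  ∑ w ∈ InvS n, (Polynomial.X : Polynomial ℤ) ^ (dcount (DD w) n)

lemma IZ_map (n : ℕ) : (IZ n).map (Int.castRingHom ℚ) = IQ n := by
  unfold IZ IQ
  rw [Polynomial.map_sum]
  simp

lemma GQ_coeff (n k : ℕ) : (GQ n).coeff k = ∑ i ∈ Finset.range (n / 2 + 1),
    gam n i * (if i ≤ k then ((n - 2 * i).choose (k - i) : ℚ) else 0) := by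
  unfold GQ
  rw [Polynomial.finsetSum_coeff]
  refine Finset.sum_congr rfl (fun i _ => ?_)
  rw [mul_assoc, Polynomial.coeff_C_mul, Polynomial.coeff_X_pow_mul']
  split_ifs with h
  · rw [Polynomial.coeff_one_add_X_pow]
  · rfl

lemma gam_int (n : ℕ) : ∀ k, ∃ z : ℤ, gam n k = z := by
  intro k
  induction k using Nat.strong_induction_on with
  | _ k ih =>
  by_cases hk : n < 2 * k
  · exact ⟨0, by rw [gam_supp n k hk]; simp⟩
  · choose z hz using ih
    have h1 : (GQ n).coeff k = (((IZ n).coeff k : ℤ) : ℚ) := by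
      rw [← IQ_eq_GQ, ← IZ_map, Polynomial.coeff_map]
      simp
    rw [GQ_coeff] at h1
    rw [← Finset.add_sum_erase (Finset.range (n / 2 + 1)) _
      (show k ∈ Finset.range (n / 2 + 1) by rw [Finset.mem_range]; omega)] at h1
    have h2 : ∃ y : ℤ, ∑ i ∈ (Finset.range (n / 2 + 1)).erase k,
        gam n i * (if i ≤ k then ((n - 2 * i).choose (k - i) : ℚ) else 0) = y := by
      have : ∀ i ∈ (Finset.range (n / 2 + 1)).erase k, ∃ y : ℤ,
          gam n i * (if i ≤ k then ((n - 2 * i).choose (k - i) : ℚ) else 0) = y := by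
        intro i hi
        rw [Finset.mem_erase] at hi
        split_ifs with h
        · refine ⟨z i (lt_of_le_of_ne h hi.1) * ((n - 2 * i).choose (k - i) : ℤ), ?_⟩
          rw [hz i (lt_of_le_of_ne h hi.1)]
          push_cast
          ring
        · exact ⟨0, by simp⟩
      choose! y hy using this
      refine ⟨∑ i ∈ (Finset.range (n / 2 + 1)).erase k, y i, ?_⟩
      push_cast
      exact Finset.sum_congr rfl hy
    obtain ⟨y, hy⟩ := h2
    rw [hy, if_pos le_rfl] at h1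
    refine ⟨(IZ n).coeff k - y, ?_⟩
    push_cast
    rw [← h1]
    simp

theorem main (n : ℕ) : ∃ γ : ℕ → ℕ, IZ n = ∑ i ∈ Finset.range (n / 2 + 1),
    Polynomial.C (γ i : ℤ) * Polynomial.X ^ i * (1 + Polynomial.X) ^ (n - 2 * i) := by
  choose z hz using gam_int n
  have hz0 : ∀ k, 0 ≤ z k := by
    intro k
    have := gam_nonneg n k
    rw [hz k] at this
    exact_mod_cast this
  refine ⟨fun k => (z k).toNat, ?_⟩
  apply Polynomial.map_injective (Int.castRingHom ℚ) Int.cast_injective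
  rw [IZ_map, IQ_eq_GQ, Polynomial.map_sum]
  unfold GQ
  refine Finset.sum_congr rfl (fun k _ => ?_)
  rw [Polynomial.map_mul, Polynomial.map_mul, Polynomial.map_pow, Polynomial.map_pow,
    Polynomial.map_add, Polynomial.map_C, Polynomial.map_X, Polynomial.map_one]
  have : (Int.castRingHom ℚ) (((z k).toNat : ℕ) : ℤ) = gam n k := by
    rw [Int.toNat_of_nonneg (hz0 k), hz k]
    simp
  rw [this]

lemma dcount_DD {n : ℕ} (w : SP n) : dcount (DD w) n =
    (Finset.univ.filter (fun j : Fin n => j.val = 0 ∧ w.2 j = true)).card +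
      (Finset.univ.filter (fun p : Fin n × Fin n => p.2.val = p.1.val + 1 ∧
        (if w.2 p.2 then (-1 : ℤ) else 1) * (((w.1 p.2 : ℕ) : ℤ) + 1) <
        (if w.2 p.1 then (-1 : ℤ) else 1) * (((w.1 p.1 : ℕ) : ℤ) + 1))).card := by
  classical
  have h : (Finset.range n).filter (DD w) =
      (Finset.univ.filter (fun j : Fin n => j.val = 0 ∧ w.2 j = true)).image (fun j => j.val) ∪
      (Finset.univ.filter (fun p : Fin n × Fin n => p.2.val = p.1.val + 1 ∧
        (if w.2 p.2 then (-1 : ℤ) else 1) * (((w.1 p.2 : ℕ) : ℤ) + 1) <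
        (if w.2 p.1 then (-1 : ℤ) else 1) * (((w.1 p.1 : ℕ) : ℤ) + 1))).image
        (fun p => p.2.val) := by
    ext k
    simp only [Finset.mem_filter, Finset.mem_range, Finset.mem_union, Finset.mem_image,
      Finset.mem_univ, true_and]
    constructor
    · rintro ⟨hk, h | h⟩
      · obtain ⟨j, hj, h0, hw⟩ := h
        exact Or.inl ⟨j, ⟨by omega, hw⟩, hj⟩
      · obtain ⟨i, j, hj, hij, hlt⟩ := h
        exact Or.inr ⟨(i, j), ⟨hij, hlt⟩, hj⟩
    · rintro (⟨j, ⟨h0, hw⟩, hj⟩ | ⟨⟨i, j⟩, ⟨hij, hlt⟩, hj⟩)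
      · exact ⟨by rw [← hj]; exact j.isLt, Or.inl ⟨j, hj, by omega, hw⟩⟩
      · exact ⟨by rw [← hj]; exact j.isLt, Or.inr ⟨i, j, hj, hij, hlt⟩⟩
  unfold dcount
  rw [h, Finset.card_union_of_disjoint, Finset.card_image_of_injective _ Fin.val_injective,
    Finset.card_image_of_injOn]
  · rintro ⟨i, j⟩ hp ⟨i', j'⟩ hp' he
    simp only [Finset.coe_filter, Finset.mem_univ, true_and, Set.mem_ofPred_eq] at hp hp'
    simp only [] at he
    have e1 : j = j' := Fin.ext he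
    have e2 : i = i' := Fin.ext (by omega)
    rw [e1, e2]
  · rw [Finset.disjoint_left]
    intro k hk hk'
    simp only [Finset.mem_filter, Finset.mem_image, Finset.mem_univ, true_and] at hk hk'
    obtain ⟨j, ⟨h0, _⟩, hj⟩ := hk
    obtain ⟨p, ⟨h1, _⟩, hj'⟩ := hk'
    omega

end Pool.Agent.N404.TB
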