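import Pool.Agent.N404.TB.Alg
import Pool.Agent.N404.TB.Sym

set_option autoImplicit false

namespace Pool.Agent.N404.TB
open PowerSeries

def sh (a : ℕ → ℚ) : ℕ → ℚ
  | 0 => 0
  | k + 1 => a k

@[simp] lemma sh_zero (a : ℕ → ℚ) : sh a 0 = 0 := rfl
@[simp] lemma sh_succ (a : ℕ → ℚ) (k : ℕ) : sh a (k + 1) = a k := rfl

noncomputable def gam : ℕ → ℕ → ℚ
  | 0 => fun k => if k = 0 then 1 else 0
  | 1 => fun k => if k = 0 then 1 else 0
  | n + 2 => fun k =>
      ((2 * (k:ℚ) + 1) * gam (n + 1) k
      + sh (fun i => (4 * ((n:ℚ) + 1 - 2 * i)) * gam (n + 1) i) k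
      + (2 * (k:ℚ) ^ 2 + 2 * k + n + 1) * gam n k
      + sh (fun i => (4 * ((2 * (i:ℚ) + 1) * ((n:ℚ) - 2 * i) - i)) * gam n i) k
      + sh (sh (fun i => (8 * ((n:ℚ) - 2 * i) * ((n:ℚ) - 2 * i - 1)) * gam n i)) k) / ((n:ℚ) + 2)

lemma gam_rec (n k : ℕ) : ((n:ℚ) + 2) * gam (n + 2) k =
      (2 * (k:ℚ) + 1) * gam (n + 1) k
      + sh (fun i => (4 * ((n:ℚ) + 1 - 2 * i)) * gam (n + 1) i) k
      + (2 * (k:ℚ) ^ 2 + 2 * k + n + 1) * gam n k
      + sh (fun i => (4 * ((2 * (i:ℚ) + 1) * ((n:ℚ) - 2 * i) - i)) * gam n i) k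
      + sh (sh (fun i => (8 * ((n:ℚ) - 2 * i) * ((n:ℚ) - 2 * i - 1)) * gam n i)) k := by
  have h : ((n:ℚ) + 2) ≠ 0 := by positivity
  rw [gam]
  field_simp

lemma gam_zero' (k : ℕ) : gam 0 k = if k = 0 then 1 else 0 := rfl
lemma gam_one' (k : ℕ) : gam 1 k = if k = 0 then 1 else 0 := rfl

lemma gam_supp : ∀ n k : ℕ, n < 2 * k → gam n k = 0 := by
  intro n
  induction n using Nat.strong_induction_on with
  | _ n ih =>
  intro k hk
  match n, ih, hk with
  | 0, _, hk => rw [gam_zero', if_neg (by omega)]
  | 1, _, hk => rw [gam_one', if_neg (by omega)]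
  | n + 2, ih, hk =>
    have h : ((n:ℚ) + 2) ≠ 0 := by positivity
    apply mul_left_cancel₀ h
    rw [gam_rec, mul_zero]
    obtain ⟨k, rfl⟩ : ∃ k', k = k' + 2 := ⟨k - 2, by omega⟩
    simp only [sh_succ]
    rw [ih (n + 1) (by omega) (k + 2) (by omega), ih n (by omega) (k + 2) (by omega),
      ih n (by omega) (k + 1) (by omega)]
    have h1 : (4 * ((n:ℚ) + 1 - 2 * ((k + 1 : ℕ) : ℚ))) * gam (n + 1) (k + 1) = 0 := by
      by_cases h1 : n + 1 < 2 * (k + 1)
      · rw [ih (n + 1) (by omega) (k + 1) h1, mul_zero]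
      · have : n = 2 * k + 1 := by omega
        subst this
        push_cast
        ring
    have h2 : (8 * ((n:ℚ) - 2 * k) * ((n:ℚ) - 2 * k - 1)) * gam n k = 0 := by
      by_cases h1 : n < 2 * k
      · rw [ih n (by omega) k h1, mul_zero]
      · rcases (by omega : n = 2 * k ∨ n = 2 * k + 1) with h3 | h3
        · subst h3; push_cast; ring
        · subst h3; push_cast; ring
    rw [h1, h2]
    ring

lemma spec_ineq (M A P Cc a b c d s : ℚ) (hM : 1 ≤ M) (hC : 0 ≤ Cc) (ha : 0 ≤ a)
    (hb : 0 ≤ b) (hc : 0 ≤ c) (hd : 0 ≤ d) (hs : 0 ≤ s)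
    (r1 : (2 * M + 3) * A = (2 * M + 3) * P + 8 * Cc + 4 * (M + 1) * a + 48 * d)
    (r2 : (2 * M + 2) * P = 4 * a - 4 * M * b + 16 * c)
    (r3 : (2 * M + 2) * Cc = (2 * M + 1) * a + 12 * d + (2 * M ^ 2 + 4 * M + 1) * b
      + 4 * (3 * M - 1) * c + s) :
    0 ≤ 4 * A - 4 * (M + 1) * P + 16 * Cc := by
  have h1 : 0 ≤ A - P := by
    have h : 0 ≤ (2 * M + 3) * (A - P) := by
      have : (2 * M + 3) * (A - P) = 8 * Cc + 4 * (M + 1) * a + 48 * d := by linear_combination r1
      rw [this]
      have : 0 ≤ (M + 1) * a := by positivity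
      linarith
    exact nonneg_of_mul_nonneg_right h (by linarith)
  have h2 : 0 ≤ 4 * Cc - M * P := by
    have h : 0 ≤ (2 * M + 2) * (4 * Cc - M * P) := by
      have : (2 * M + 2) * (4 * Cc - M * P) = (4 * M + 4) * a + 48 * d
          + (4 * (2 * M ^ 2 + 4 * M + 1) + 4 * M ^ 2) * b + (32 * M - 16) * c + 4 * s := by
        linear_combination 4 * r3 - M * r2
      rw [this]
      have h3 : 0 ≤ (32 * M - 16) * c := mul_nonneg (by linarith) hc
      have h4 : 0 ≤ (4 * M + 4) * a := by positivity
      have h5 : 0 ≤ (4 * (2 * M ^ 2 + 4 * M + 1) + 4 * M ^ 2) * b := by positivity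
      linarith
    exact nonneg_of_mul_nonneg_right h (by linarith)
  linarith

/-- positivity -/
lemma gam_nonneg : ∀ n k : ℕ, 0 ≤ gam n k := by
  intro n
  induction n using Nat.strong_induction_on with
  | _ n ih =>
  intro k
  match n, ih with
  | 0, _ => rw [gam_zero']; split_ifs <;> norm_num
  | 1, _ => rw [gam_one']; split_ifs <;> norm_num
  | n + 2, ih =>
    have hn : (0:ℚ) < (n:ℚ) + 2 := by positivity
    have g1 := ih (n + 1) (by omega)
    have g0 := ih n (by omega)
    suffices h : 0 ≤ ((n:ℚ) + 2) * gam (n + 2) k by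
      exact nonneg_of_mul_nonneg_right h hn
    rcases k with _ | i
    · rw [gam_rec]
      simp only [sh_zero, add_zero]
      have h1 := g1 0
      have h2 := g0 0
      have h3 : sh (sh (fun i => (8 * ((n:ℚ) - 2 * i) * ((n:ℚ) - 2 * i - 1)) * gam n i)) 0 = 0 := rfl
      push_cast
      positivity
    · have a1 : 0 ≤ (2 * ((i + 1 : ℕ):ℚ) + 1) * gam (n + 1) (i + 1) := by
        have := g1 (i + 1); positivity
      have a2 : 0 ≤ (4 * ((n:ℚ) + 1 - 2 * i)) * gam (n + 1) i := by
        by_cases h : n + 1 < 2 * i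
        · rw [gam_supp _ _ h, mul_zero]
        · have h1 : (2 * (i:ℚ)) ≤ (n:ℚ) + 1 := by exact_mod_cast (not_lt.mp h)
          have := g1 i
          apply mul_nonneg _ this
          linarith
      have a3 : 0 ≤ (2 * ((i + 1 : ℕ):ℚ) ^ 2 + 2 * ((i + 1 : ℕ):ℚ) + n + 1) * gam n (i + 1) := by
        have := g0 (i + 1); positivity
      have a5 : 0 ≤ sh (fun i => (8 * ((n:ℚ) - 2 * i) * ((n:ℚ) - 2 * i - 1)) * gam n i) i := by
        rcases i with _ | m
        · simp
        · rw [sh_succ]
          by_cases h : n < 2 * m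
          · rw [gam_supp _ _ h, mul_zero]
          · have h2 := g0 m
            rcases Nat.eq_or_lt_of_le (not_lt.mp h) with h3 | h3
            · rw [← h3]; push_cast; simp
            · have h4 : (2 * (m:ℚ)) + 1 ≤ (n:ℚ) := by exact_mod_cast h3
              apply mul_nonneg _ h2
              apply mul_nonneg
              · linarith
              · linarith
      by_cases hs : n = 2 * i ∧ 1 ≤ i
      · -- the special case
        obtain ⟨h1, h2⟩ := hs
        obtain ⟨m, rfl⟩ : ∃ m, i = m + 1 := ⟨i - 1, by omega⟩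
        subst h1
        rw [gam_rec]
        simp only [sh_succ]
        rw [gam_supp (2 * (m + 1) + 1) (m + 1 + 1) (by omega),
          gam_supp (2 * (m + 1)) (m + 1 + 1) (by omega)]
        have e1 : 2 * (m + 1) + 1 = (2 * m + 1) + 2 := by ring
        have e2 : 2 * (m + 1) = 2 * m + 2 := by ring
        -- recurrences
        have r1 := gam_rec (2 * m + 1) (m + 1)
        have r2 := gam_rec (2 * m) (m + 1)
        have r3 := gam_rec (2 * m) m
        simp only [sh_succ] at r1 r2
        rw [gam_supp (2 * m + 1) (m + 1) (by omega)] at r1 r2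
        rw [gam_supp (2 * m) (m + 1) (by omega)] at r2
        have e3 : 2 * m + 1 + 1 = 2 * m + 2 := by ring
        rw [e3] at r1
        rw [← e1, ← e2] at r1
        rw [← e2] at r2 r3
        have pA : 0 ≤ gam (2 * m + 1) m := ih _ (by omega) _
        have pB : 0 ≤ gam (2 * m) m := ih _ (by omega) _
        have pC : 0 ≤ gam (2 * (m + 1)) m := ih _ (by omega) _
        have pD : 0 ≤ gam (2 * (m + 1)) (m + 1) := ih _ (by omega) _
        have pE : 0 ≤ sh (fun i => (8 * (((2 * m + 1 : ℕ):ℚ) - 2 * i) *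
            (((2 * m + 1 : ℕ):ℚ) - 2 * i - 1)) * gam (2 * m + 1) i) m := by
          rcases m with _ | m
          · simp
          · rw [sh_succ]
            have := ih (2 * (m + 1) + 1) (by omega) m
            apply mul_nonneg _ this
            push_cast
            nlinarith
        have pF : 0 ≤ sh (fun i => (4 * (((2 * m : ℕ):ℚ) + 1 - 2 * i)) * gam (2 * m + 1) i) m := by
          rcases m with _ | m
          · simp
          · rw [sh_succ]
            have := ih (2 * (m + 1) + 1) (by omega) m
            apply mul_nonneg _ this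
            push_cast
            linarith
        have hm : (0:ℚ) ≤ m := by positivity
        push_cast at *
        rcases m with _ | m
        · -- m = 0
          simp only [sh_zero, Nat.cast_zero] at *
          nlinarith
        · simp only [sh_succ] at *
          have pG : 0 ≤ gam (2 * (m + 1)) m := ih _ (by omega) _
          have pH : 0 ≤ sh (fun i => (8 * (((2 * (m + 1) : ℕ):ℚ) - 2 * i) *
              (((2 * (m + 1) : ℕ):ℚ) - 2 * i - 1)) * gam (2 * (m + 1)) i) m := by
            rcases m with _ | m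
            · simp
            · rw [sh_succ]
              have := ih (2 * (m + 1 + 1)) (by omega) m
              apply mul_nonneg _ this
              push_cast
              nlinarith
          push_cast at *
          have pI : 0 ≤ gam (2 * (m + 1) + 1) m := ih _ (by omega) _
          have hm0 : (0:ℚ) ≤ m := by positivity
          have key := spec_ineq ((m:ℚ) + 1) (gam (2 * (m + 1 + 1) + 1) (m + 1 + 1))
            (gam (2 * (m + 1 + 1)) (m + 1 + 1)) (gam (2 * (m + 1 + 1)) (m + 1))
            (gam (2 * (m + 1) + 1) (m + 1)) (gam (2 * (m + 1)) (m + 1)) (gam (2 * (m + 1)) m)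
            (gam (2 * (m + 1) + 1) m) _ (by linarith) pC pA pB pG pI pH
            (by linear_combination r1) (by linear_combination r2) (by linear_combination r3)
          linarith
      · -- generic case
        have a4 : 0 ≤ (4 * ((2 * (i:ℚ) + 1) * ((n:ℚ) - 2 * i) - i)) * gam n i := by
          by_cases h : n < 2 * i
          · rw [gam_supp _ _ h, mul_zero]
          · rcases Nat.eq_or_lt_of_le (not_lt.mp h) with h3 | h3
            · have : i = 0 := by omega
              subst this
              have : n = 0 := by omega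
              subst this
              simp
            · have h4 : (2 * (i:ℚ)) + 1 ≤ (n:ℚ) := by exact_mod_cast h3
              apply mul_nonneg _ (g0 i)
              have hi : (0:ℚ) ≤ i := by positivity
              nlinarith
        rw [gam_rec]
        simp only [sh_succ]
        linarith

end Pool.Agent.N404.TB
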